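import Mathlib

/-!
# Schwarz–Pick for the upper half plane

`pick`: for `G` holomorphic from the upper half plane to itself the hyperbolic distance decreases.
Fix `v`; with the Cayley map `c ζ = (v - conj v ζ) / (1 - ζ)` of the disc onto the half plane
(`c 0 = v`) the function `S ζ = (G (c ζ) - G v) / (G (c ζ) - conj (G v))` maps the disc to the disc
and `S 0 = 0`, so `‖S ζ‖ ≤ ‖ζ‖` by the Schwarz lemma (Mathlib, `Complex.norm_le_norm_of_mapsTo_ball`
or a similar name); take `ζ = (u - v) / (u - conj v)`.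

`exp_neg_dist`: `exp d ≤ 2 cosh d` and
`2 Im a Im b cosh d = |a - b|² + 2 Im a Im b ≤ (‖a‖ + ‖b‖)²`.
-/

set_option autoImplicit false

open Complex ComplexConjugate Metric Set

namespace Pool.Agent.H99D

theorem normSq_sub_conj_sub (w c : ℂ) :
    ‖w - conj c‖ ^ 2 - ‖w - c‖ ^ 2 = 4 * w.im * c.im := by
  rw [← Complex.normSq_eq_norm_sq, ← Complex.normSq_eq_norm_sq]
  simp only [Complex.normSq_apply, sub_re, sub_im, conj_re, conj_im]
  ring

theorem sub_conj_ne {w c : ℂ} (hw : 0 < w.im) (hc : 0 < c.im) : w - conj c ≠ 0 := by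
  intro h
  have := congrArg Complex.im h
  simp only [sub_im, conj_im, zero_im] at this
  linarith

theorem norm_quot_lt {w c : ℂ} (hw : 0 < w.im) (hc : 0 < c.im) :
    ‖(w - c) / (w - conj c)‖ < 1 := by
  rw [norm_div, div_lt_one (norm_pos_iff.mpr (sub_conj_ne hw hc))]
  have := normSq_sub_conj_sub w c
  have h2 : 0 < 4 * w.im * c.im := by positivity
  exact lt_of_pow_lt_pow_left₀ 2 (norm_nonneg _) (by linarith)

theorem pick {G : ℂ → ℂ} (hG : DifferentiableOn ℂ G {z | 0 < z.im})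
    (hm : ∀ z : ℂ, 0 < z.im → 0 < (G z).im) {u v : ℂ} (hu : 0 < u.im) (hv : 0 < v.im) :
    dist (⟨G u, hm u hu⟩ : UpperHalfPlane) ⟨G v, hm v hv⟩ ≤
      dist (⟨u, hu⟩ : UpperHalfPlane) ⟨v, hv⟩ := by
  -- the Cayley map
  set c : ℂ → ℂ := fun ζ => (v - conj v * ζ) / (1 - ζ) with hc
  have hne1 : ∀ ζ ∈ ball (0 : ℂ) 1, (1 : ℂ) - ζ ≠ 0 := by
    intro ζ hζ h
    have : ζ = 1 := (sub_eq_zero.mp h).symm
    rw [this] at hζ
    simp at hζ
  have hcim : ∀ ζ ∈ ball (0 : ℂ) 1, 0 < (c ζ).im := by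
    intro ζ hζ
    have h1 := hne1 ζ hζ
    have hζ' : ‖ζ‖ < 1 := by simpa using hζ
    have h2 : (c ζ).im = v.im * (1 - ‖ζ‖ ^ 2) / ‖1 - ζ‖ ^ 2 := by
      rw [hc]
      simp only
      rw [Complex.div_im, ← Complex.normSq_eq_norm_sq, ← Complex.normSq_eq_norm_sq]
      have h3 : Complex.normSq (1 - ζ) ≠ 0 := by simpa [Complex.normSq_eq_zero] using h1
      field_simp
      simp only [Complex.normSq_apply, sub_re, sub_im, mul_re, mul_im, conj_re, conj_im, one_re,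
        one_im]
      ring
    rw [h2]
    have h4 : 0 < 1 - ‖ζ‖ ^ 2 := by nlinarith [norm_nonneg ζ]
    have h5 : 0 < ‖1 - ζ‖ := norm_pos_iff.mpr h1
    positivity
  have hcd : DifferentiableOn ℂ c (ball 0 1) := by
    intro ζ hζ
    refine DifferentiableAt.differentiableWithinAt ?_
    exact DifferentiableAt.div (by fun_prop) (by fun_prop) (hne1 ζ hζ)
  set S : ℂ → ℂ := fun ζ => (G (c ζ) - G v) / (G (c ζ) - conj (G v)) with hS
  have hGc : DifferentiableOn ℂ (fun ζ => G (c ζ)) (ball 0 1) :=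
    hG.comp hcd (fun ζ hζ => hcim ζ hζ)
  have hSd : DifferentiableOn ℂ S (ball 0 1) := by
    refine DifferentiableOn.div (hGc.sub_const _) (hGc.sub_const _) ?_
    intro ζ hζ
    exact sub_conj_ne (hm _ (hcim ζ hζ)) (hm _ hv)
  have hSm : MapsTo S (ball 0 1) (closedBall 0 1) := by
    intro ζ hζ
    rw [mem_closedBall_zero_iff]
    exact (norm_quot_lt (hm _ (hcim ζ hζ)) (hm _ hv)).le
  have hc0 : c 0 = v := by simp [hc]
  have hS0 : S 0 = 0 := by simp [hS, hc0]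
  set ζ : ℂ := (u - v) / (u - conj v) with hζ
  have hζ1 : ‖ζ‖ < 1 := norm_quot_lt hu hv
  have hcζ : c ζ = u := by
    have h1 : u - conj v ≠ 0 := sub_conj_ne hu hv
    have h2 : (1 : ℂ) - ζ ≠ 0 := hne1 ζ (by simpa using hζ1)
    have h3 : v - conj v ≠ 0 := sub_conj_ne hv hv
    have h4 : (1 : ℂ) - ζ = (v - conj v) / (u - conj v) := by
      rw [hζ]; field_simp; ring
    have h5 : v - conj v * ζ = u * (v - conj v) / (u - conj v) := by
      rw [hζ]; field_simp; ring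
    rw [hc]
    simp only
    rw [h4, h5]
    field_simp
  have hsch : ‖S ζ‖ ≤ ‖ζ‖ := Complex.norm_le_norm_of_mapsTo_ball hSd hSm hS0 hζ1
  have hSζ : S ζ = (G u - G v) / (G u - conj (G v)) := by simp only [hS, hcζ]
  rw [hSζ, hζ, norm_div, norm_div] at hsch
  have key : Real.tanh (dist (⟨G u, hm u hu⟩ : UpperHalfPlane) ⟨G v, hm v hv⟩ / 2) ≤
      Real.tanh (dist (⟨u, hu⟩ : UpperHalfPlane) ⟨v, hv⟩ / 2) := by
    rw [UpperHalfPlane.tanh_half_dist, UpperHalfPlane.tanh_half_dist]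
    simpa [Complex.dist_eq] using hsch
  have h6 := Real.artanh_le_artanh (Real.neg_one_lt_tanh _) (Real.tanh_lt_one _) key
  rw [Real.artanh_tanh, Real.artanh_tanh] at h6
  linarith

theorem exp_neg_dist (u v : UpperHalfPlane) :
    u.im * v.im / (‖(u : ℂ)‖ + ‖(v : ℂ)‖) ^ 2 ≤ Real.exp (-dist u v) := by
  have hu := u.im_pos
  have hv := v.im_pos
  have hnu : 0 < ‖(u : ℂ)‖ := norm_pos_iff.mpr (UpperHalfPlane.ne_zero u)
  have hnv : 0 < ‖(v : ℂ)‖ := norm_pos_iff.mpr (UpperHalfPlane.ne_zero v)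
  have h1 : Real.exp (dist u v) ≤ 2 * Real.cosh (dist u v) := by
    rw [Real.cosh_eq]
    have := Real.exp_pos (-dist u v)
    linarith
  rw [UpperHalfPlane.cosh_dist] at h1
  have h2 : dist (u : ℂ) v ^ 2 + 2 * u.im * v.im ≤ (‖(u : ℂ)‖ + ‖(v : ℂ)‖) ^ 2 := by
    rw [Complex.dist_eq]
    have e1 : ‖(u : ℂ) - v‖ ^ 2 = ((u : ℂ).re - (v : ℂ).re) ^ 2 + (u.im - v.im) ^ 2 := by
      rw [← Complex.normSq_eq_norm_sq, Complex.normSq_apply, sub_re, sub_im]
      simp only [UpperHalfPlane.coe_im]; ring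
    have e2 : ‖(u : ℂ)‖ ^ 2 = (u : ℂ).re ^ 2 + u.im ^ 2 := by
      rw [← Complex.normSq_eq_norm_sq, Complex.normSq_apply]
      simp only [UpperHalfPlane.coe_im]; ring
    have e3 : ‖(v : ℂ)‖ ^ 2 = (v : ℂ).re ^ 2 + v.im ^ 2 := by
      rw [← Complex.normSq_eq_norm_sq, Complex.normSq_apply]
      simp only [UpperHalfPlane.coe_im]; ring
    have e4 : -((u : ℂ).re * (v : ℂ).re) ≤ ‖(u : ℂ)‖ * ‖(v : ℂ)‖ := by
      have := abs_re_le_norm (u : ℂ)
      have h' := abs_re_le_norm (v : ℂ)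
      calc -((u : ℂ).re * (v : ℂ).re) ≤ |(u : ℂ).re * (v : ℂ).re| := neg_le_abs _
        _ = |(u : ℂ).re| * |(v : ℂ).re| := abs_mul _ _
        _ ≤ _ := mul_le_mul this h' (abs_nonneg _) (norm_nonneg _)
    rw [e1]
    nlinarith
  have h3 : Real.exp (dist u v) * (u.im * v.im) ≤ (‖(u : ℂ)‖ + ‖(v : ℂ)‖) ^ 2 := by
    calc Real.exp (dist u v) * (u.im * v.im) ≤
        2 * (1 + dist (u : ℂ) v ^ 2 / (2 * u.im * v.im)) * (u.im * v.im) :=
          mul_le_mul_of_nonneg_right h1 (by positivity)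
      _ = dist (u : ℂ) v ^ 2 + 2 * u.im * v.im := by field_simp; ring
      _ ≤ _ := h2
  rw [Real.exp_neg, div_le_iff₀ (by positivity), ← div_eq_inv_mul,
    le_div_iff₀ (Real.exp_pos _)]
  linarith

end Pool.Agent.H99D
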