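import Pool.Agent.H99D.Defs
import Pool.Agent.H99D.Pick
import Pool.Agent.H99S.Rmt
import Pool.Agent.H99S.GreenLevel

/-!
# The hyperbolic distance of a simply connected domain and its Green's function

Take `ψ, φ` from `H99S.riemann_sc`, `Φ z = i (1 + φ z) / (1 - φ z)` (for `z ∈ D`, in the upper half
plane, `Φ a = i`), `dd x y = dist (Φ x) (Φ y)` (with a junk value outside `D`).  `tri` is the
triangle inequality, `map` is `pick` for `Φ ∘ f` and `exp_neg_dist`.  For `z ∈ D`, `z ≠ a`, put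
`t = ‖φ z‖ ∈ (0, 1)`: `g z = - log t` (`H99S.green_eq`), `t = tanh (dd a z / 2)`
(`UpperHalfPlane.tanh_half_dist` or `cosh_dist`), and `- log t ≥ 1 - t ≥ exp (- dd a z)` because
`exp d = (1 + t) / (1 - t)`.
-/

set_option autoImplicit false

open Complex ComplexConjugate Metric Set

namespace Pool.Agent.H99D

open Pool.Agent.H99.Circ

/-- The Cayley map of the unit disc onto the upper half plane. -/
noncomputable def cay (w : ℂ) : ℂ := I * (1 + w) / (1 - w)

theorem one_sub_ne {w : ℂ} (hw : ‖w‖ < 1) : 1 - w ≠ 0 := by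
  intro h
  have : w = 1 := (sub_eq_zero.1 h).symm
  rw [this, norm_one] at hw
  exact lt_irrefl _ hw

theorem cay_im {w : ℂ} (hw : ‖w‖ < 1) : (cay w).im = (1 - ‖w‖ ^ 2) / ‖1 - w‖ ^ 2 := by
  have h1 := one_sub_ne hw
  have h2 : normSq (1 - w) ≠ 0 := by simpa using h1
  rw [cay, Complex.div_im, ← Complex.normSq_eq_norm_sq, ← Complex.normSq_eq_norm_sq]
  field_simp
  simp only [normSq_apply, mul_re, mul_im, I_re, I_im, add_re, add_im, sub_re, sub_im, one_re,
    one_im]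
  ring

theorem cay_im_pos {w : ℂ} (hw : ‖w‖ < 1) : 0 < (cay w).im := by
  rw [cay_im hw]
  have h1 := norm_pos_iff.2 (one_sub_ne hw)
  have h2 : ‖w‖ ^ 2 < 1 := by
    have := norm_nonneg w
    nlinarith
  apply div_pos
  · linarith
  · positivity

theorem cay_zero : cay 0 = I := by simp [cay]

theorem cay_sub {w : ℂ} (hw : ‖w‖ < 1) : cay 0 - cay w = -(2 * I * w / (1 - w)) := by
  have h1 := one_sub_ne hw
  rw [cay_zero, cay]
  field_simp
  ring

theorem exp_neg_dist_cay {w : ℂ} (hw : ‖w‖ < 1) (h0 : 0 < ((cay 0).im))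
    (h : 0 < (cay w).im) :
    Real.exp (-dist (⟨cay 0, h0⟩ : UpperHalfPlane) ⟨cay w, h⟩) ≤ 1 - ‖w‖ := by
  set t := ‖w‖ with ht
  have ht0 : 0 ≤ t := norm_nonneg w
  set d := dist (⟨cay 0, h0⟩ : UpperHalfPlane) ⟨cay w, h⟩ with hd
  have hd0 : 0 ≤ d := dist_nonneg
  have hcosh : Real.cosh d = (1 + t ^ 2) / (1 - t ^ 2) := by
    rw [hd, UpperHalfPlane.cosh_dist]
    have e1 : dist ((⟨cay 0, h0⟩ : UpperHalfPlane) : ℂ) ((⟨cay w, h⟩ : UpperHalfPlane) : ℂ) =
        2 * t / ‖1 - w‖ := by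
      show dist (cay 0) (cay w) = _
      rw [dist_eq_norm, cay_sub hw, norm_neg, norm_div, norm_mul, norm_mul, norm_I]
      simp [ht]
    have e2 : (⟨cay 0, h0⟩ : UpperHalfPlane).im = 1 := by
      show (cay 0).im = 1
      rw [cay_zero, I_im]
    have e3 : (⟨cay w, h⟩ : UpperHalfPlane).im = (1 - t ^ 2) / ‖1 - w‖ ^ 2 := by
      show (cay w).im = _
      rw [cay_im hw]
    rw [e1, e2, e3]
    have h1 := norm_pos_iff.2 (one_sub_ne hw)
    have h2 : 0 < 1 - t ^ 2 := by nlinarith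
    field_simp
    ring
  have h2 : 0 < 1 - t := by linarith
  have h3 : 0 < 1 + t := by linarith
  have h4 : 0 < 1 - t ^ 2 := by nlinarith
  set s := Real.log ((1 + t) / (1 - t)) with hs
  have hes : Real.exp s = (1 + t) / (1 - t) := Real.exp_log (by positivity)
  have hs0 : 0 ≤ s := Real.log_nonneg (by rw [le_div_iff₀ h2]; linarith)
  have hcs : Real.cosh s = (1 + t ^ 2) / (1 - t ^ 2) := by
    rw [Real.cosh_eq, Real.exp_neg, hes]
    field_simp
    ring
  have hsd : s ≤ d := by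
    have : Real.cosh s ≤ Real.cosh d := by rw [hcosh, hcs]
    rw [Real.cosh_le_cosh, abs_of_nonneg hs0, abs_of_nonneg hd0] at this
    exact this
  calc Real.exp (-d) ≤ Real.exp (-s) := Real.exp_le_exp.2 (by linarith)
    _ = (1 - t) / (1 + t) := by rw [Real.exp_neg, hes, inv_div]
    _ ≤ 1 - t := by
      rw [div_le_iff₀ h3]
      nlinarith

open Classical in
theorem chain {D : Set ℂ} (hD : IsOpen D) (hsc : IsSimplyConnected D) (hne : D ≠ univ) {a : ℂ}
    (ha : a ∈ D) {g : ℂ → ℝ} (hg : IsGreen D a g) :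
    ∃ dd : ℂ → ℂ → ℝ, HDist D dd ∧ ∀ z ∈ D, z ≠ a → Real.exp (-dd a z) ≤ g z := by
  obtain ⟨ψ, φ, hψ, hφ, hψm, hφm, hφψ, hψφ, hψ0⟩ :=
    Pool.Agent.H99S.riemann_sc hD hsc hne ha
  have h0 : (0 : ℂ) ∈ ball (0 : ℂ) 1 := mem_ball_self one_pos
  have hφa : φ a = 0 := by rw [← hψ0, hφψ 0 h0]
  have hφn : ∀ z ∈ D, ‖φ z‖ < 1 := fun z hz => mem_ball_zero_iff.1 (hφm hz)
  let Φ : ℂ → UpperHalfPlane := fun z =>
    if h : z ∈ D then ⟨cay (φ z), cay_im_pos (hφn z h)⟩ else UpperHalfPlane.I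
  have hΦ : ∀ z (h : z ∈ D), Φ z = ⟨cay (φ z), cay_im_pos (hφn z h)⟩ := by
    intro z h
    simp only [Φ, dif_pos h]
  refine ⟨fun x y => dist (Φ x) (Φ y), ⟨fun x y z => dist_triangle _ _ _, ?_⟩, ?_⟩
  · intro f hf hfm u v hu hv
    have hm : ∀ z : ℂ, 0 < z.im → 0 < ((fun z => cay (φ (f z))) z).im := fun z hz =>
      cay_im_pos (hφn _ (hfm hz))
    have hG : DifferentiableOn ℂ (fun z => cay (φ (f z))) {z | 0 < z.im} := by
      have h1 : DifferentiableOn ℂ (fun z => φ (f z)) {z | 0 < z.im} := hφ.comp hf hfm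
      unfold cay
      refine DifferentiableOn.div ?_ ?_ ?_
      · exact (h1.const_add 1).const_mul I
      · exact h1.const_sub 1
      · intro z hz
        exact one_sub_ne (hφn _ (hfm hz))
    have h1 := pick hG hm hu hv
    have h2 := exp_neg_dist ⟨u, hu⟩ ⟨v, hv⟩
    have h3 : dist (Φ (f u)) (Φ (f v)) ≤ dist (⟨u, hu⟩ : UpperHalfPlane) ⟨v, hv⟩ := by
      rw [hΦ _ (hfm hu), hΦ _ (hfm hv)]
      exact h1
    refine le_trans h2 (Real.exp_le_exp.2 ?_)
    linarith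
  · intro z hz hza
    have hz0 : φ z ≠ 0 := by
      intro h
      apply hza
      rw [← hψφ z hz, h, hψ0]
    have h1 : g z = -Real.log ‖φ z‖ := by
      have := Pool.Agent.H99S.green_eq hD hψ hφ hψm hφm hφψ hψφ hψ0 hg (hφm hz) hz0
      rwa [hψφ z hz] at this
    have h2 : Real.exp (-dist (Φ a) (Φ z)) ≤ 1 - ‖φ z‖ := by
      rw [hΦ a ha, hΦ z hz]
      have := exp_neg_dist_cay (hφn z hz) (by rw [cay_zero, I_im]; exact one_pos)
        (cay_im_pos (hφn z hz))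
      simpa only [hφa] using this
    have h3 : Real.log ‖φ z‖ ≤ ‖φ z‖ - 1 :=
      Real.log_le_sub_one_of_pos (norm_pos_iff.2 hz0)
    show Real.exp (-dist (Φ a) (Φ z)) ≤ g z
    rw [h1]
    linarith

end Pool.Agent.H99D
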