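import Pool.Agent.H99D.Defs

/-!
# Elementary facts about the constants and the involution

`PP = ka + i sa`, `ka² + sa² = 1`, `0 < ka < 1`, `0 < sa < 1` (as `0 < 2π/5 < π/2`).
`‖w - conj PP‖² - ‖w - PP‖² = 4 sa Im w`.
-/

set_option autoImplicit false

open Complex ComplexConjugate Metric Set

namespace Pool.Agent.H99D

theorem AA_pos : 0 < AA := by
  have := Real.pi_pos
  unfold AA
  positivity

theorem AA_lt : AA < Real.pi / 2 := by
  have := Real.pi_pos
  unfold AA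
  linarith

theorem ka_pos : 0 < ka := by
  have h1 := AA_pos
  have h2 := AA_lt
  have := Real.pi_pos
  exact Real.cos_pos_of_mem_Ioo ⟨by linarith, h2⟩

theorem sa_pos : 0 < sa := by
  have h1 := AA_pos
  have h2 := AA_lt
  have := Real.pi_pos
  exact Real.sin_pos_of_pos_of_lt_pi h1 (by linarith)

theorem ka_sq : ka ^ 2 + sa ^ 2 = 1 := Real.cos_sq_add_sin_sq AA

theorem ka_lt : ka < 1 := by
  have h1 := ka_sq
  have h2 := sa_pos
  have h3 := ka_pos
  nlinarith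

theorem sa_lt : sa < 1 := by
  have h1 := ka_sq
  have h2 := sa_pos
  have h3 := ka_pos
  nlinarith

theorem PP_eq : PP = ka + sa * I := by
  unfold PP ka sa
  rw [Complex.exp_mul_I, Complex.ofReal_cos, Complex.ofReal_sin]

theorem PP_re : PP.re = ka := by
  rw [PP_eq]
  simp

theorem PP_im : PP.im = sa := by
  rw [PP_eq]
  simp

theorem norm_PP : ‖PP‖ = 1 := by
  unfold PP
  exact Complex.norm_exp_ofReal_mul_I AA

theorem normSq_sub_conj (w : ℂ) :
    ‖w - conj PP‖ ^ 2 = (w.re - ka) ^ 2 + (w.im + sa) ^ 2 := by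
  rw [← Complex.normSq_eq_norm_sq, Complex.normSq_apply, sub_re, sub_im, conj_re, conj_im, PP_re,
    PP_im]
  ring

theorem normSq_sub (w : ℂ) :
    ‖w - PP‖ ^ 2 = (w.re - ka) ^ 2 + (w.im - sa) ^ 2 := by
  rw [← Complex.normSq_eq_norm_sq, Complex.normSq_apply, sub_re, sub_im, PP_re,
    PP_im]
  ring

/-- For `Im w ≥ 0` the denominator does not vanish: `sa ≤ ‖w - conj PP‖`. -/
theorem sa_le {w : ℂ} (hw : 0 ≤ w.im) : sa ≤ ‖w - conj PP‖ := by
  have h1 := normSq_sub_conj w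
  have h2 := sa_pos
  refine abs_le_of_sq_le_sq' ?_ (norm_nonneg _) |>.2
  rw [h1]
  nlinarith [sq_nonneg (w.re - ka), mul_nonneg hw h2.le]

theorem norm_MM_sq (w : ℂ) : ‖MM w‖ ^ 2 = ‖w - PP‖ ^ 2 / ‖w - conj PP‖ ^ 2 := by
  unfold MM
  rw [norm_div, norm_mul, Complex.norm_conj, norm_PP, one_mul, div_pow]

theorem one_sub_norm {w : ℂ} (hw : 0 ≤ w.im) :
    1 - ‖MM w‖ ^ 2 = 4 * sa * w.im / ‖w - conj PP‖ ^ 2 := by
  have h1 := sa_le hw
  have h2 := sa_pos
  have h3 : 0 < ‖w - conj PP‖ ^ 2 := by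
    have : 0 < ‖w - conj PP‖ := lt_of_lt_of_le h2 h1
    positivity
  rw [norm_MM_sq, eq_div_iff h3.ne', sub_mul, div_mul_cancel₀ _ h3.ne', one_mul,
    normSq_sub_conj, normSq_sub]
  ring

theorem sub_ne {w : ℂ} (hw : 0 ≤ w.im) : w - conj PP ≠ 0 := by
  intro h
  have h1 := sa_le hw
  rw [h, norm_zero] at h1
  exact absurd sa_pos (not_lt.2 h1)

theorem MM_re (w : ℂ) : (MM w).re =
    ((ka * (w.re - ka) + sa * (w.im - sa)) * (w.re - ka) +
      (ka * (w.im - sa) - sa * (w.re - ka)) * (w.im + sa)) / ‖w - conj PP‖ ^ 2 := by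
  unfold MM
  rw [Complex.div_re, Complex.normSq_eq_norm_sq, ← add_div]
  congr 1
  simp only [mul_re, mul_im, sub_re, sub_im, conj_re, conj_im, PP_re, PP_im]
  ring

theorem MM_im (w : ℂ) : (MM w).im =
    ((ka * (w.im - sa) - sa * (w.re - ka)) * (w.re - ka) -
      (ka * (w.re - ka) + sa * (w.im - sa)) * (w.im + sa)) / ‖w - conj PP‖ ^ 2 := by
  unfold MM
  rw [Complex.div_im, Complex.normSq_eq_norm_sq, ← sub_div]
  congr 1
  simp only [mul_re, mul_im, sub_re, sub_im, conj_re, conj_im, PP_re, PP_im]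
  ring

theorem re_sub {w : ℂ} (hw : 0 ≤ w.im) :
    (MM w).re - ka * ‖MM w‖ ^ 2 = 2 * sa * (w * conj PP).im / ‖w - conj PP‖ ^ 2 := by
  have h1 := sa_le hw
  have h2 := sa_pos
  have h3 : 0 < ‖w - conj PP‖ ^ 2 := by
    have : 0 < ‖w - conj PP‖ := lt_of_lt_of_le h2 h1
    positivity
  rw [MM_re, norm_MM_sq, eq_div_iff h3.ne', sub_mul, mul_assoc ka, div_mul_cancel₀ _ h3.ne',
    div_mul_cancel₀ _ h3.ne', normSq_sub, mul_im, conj_re, conj_im, PP_re, PP_im]
  ring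

theorem MM_norm_lt {w : ℂ} (hw : 0 < w.im) : ‖MM w‖ < 1 := by
  have h1 := one_sub_norm hw.le
  have h2 := sa_pos
  have h3 : 0 < ‖w - conj PP‖ ^ 2 := by
    have : 0 < ‖w - conj PP‖ := lt_of_lt_of_le h2 (sa_le hw.le)
    positivity
  have h4 : 0 < 1 - ‖MM w‖ ^ 2 := by
    rw [h1]
    positivity
  nlinarith [norm_nonneg (MM w)]

theorem ne_conj {z : ℂ} (hz : ‖z‖ < 1) : z ≠ conj PP := by
  rintro rfl
  rw [Complex.norm_conj, norm_PP] at hz
  exact lt_irrefl _ hz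

theorem MM_im_pos {z : ℂ} (hz : ‖z‖ < 1) : 0 < (MM z).im := by
  have h2 := sa_pos
  have h3 : 0 < ‖z - conj PP‖ ^ 2 := by
    have : 0 < ‖z - conj PP‖ := norm_pos_iff.2 (sub_ne_zero.2 (ne_conj hz))
    positivity
  rw [MM_im]
  refine div_pos ?_ h3
  have h4 : z.re ^ 2 + z.im ^ 2 < 1 := by
    have h5 : ‖z‖ ^ 2 = z.re ^ 2 + z.im ^ 2 := by
      rw [← Complex.normSq_eq_norm_sq, Complex.normSq_apply]
      ring
    rw [← h5]
    nlinarith [norm_nonneg z]
  have h6 : (ka * (z.im - sa) - sa * (z.re - ka)) * (z.re - ka) -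
      (ka * (z.re - ka) + sa * (z.im - sa)) * (z.im + sa) =
      sa * (ka ^ 2 + sa ^ 2 - (z.re ^ 2 + z.im ^ 2)) := by
    ring
  rw [h6, ka_sq]
  exact mul_pos h2 (by linarith)

theorem MM_MM {z : ℂ} (hz : z ≠ conj PP) : MM (MM z) = z := by
  have hz0 : z - conj PP ≠ 0 := sub_ne_zero.2 hz
  have hP0 : conj PP ≠ 0 := by
    intro h
    have h1 : ‖conj PP‖ = 1 := by rw [Complex.norm_conj, norm_PP]
    rw [h, norm_zero] at h1
    exact zero_ne_one h1
  have hd : conj PP - PP ≠ 0 := by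
    intro h
    have h1 := congrArg Complex.im h
    rw [sub_im, conj_im, PP_im, zero_im] at h1
    have := sa_pos
    linarith
  have hPP : conj PP * PP = 1 := by
    rw [mul_comm, Complex.mul_conj, Complex.normSq_eq_norm_sq, norm_PP]
    simp
  have h1 : MM z - PP = (conj PP - PP) * z / (z - conj PP) := by
    unfold MM
    rw [eq_div_iff hz0, sub_mul, div_mul_cancel₀ _ hz0]
    ring
  have h2 : MM z - conj PP = conj PP * (conj PP - PP) / (z - conj PP) := by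
    unfold MM
    rw [eq_div_iff hz0, sub_mul, div_mul_cancel₀ _ hz0]
    ring
  have h3 : MM (MM z) = conj PP * (MM z - PP) / (MM z - conj PP) := rfl
  rw [h3, h1, h2]
  field_simp

theorem MM_diff : DifferentiableOn ℂ MM {z | 0 < z.im} := by
  intro z hz
  have h1 : z - conj PP ≠ 0 := sub_ne (le_of_lt hz)
  have h2 : DifferentiableAt ℂ MM z := by
    unfold MM
    refine DifferentiableAt.div ?_ ?_ h1
    · exact (differentiableAt_id.sub_const _).const_mul _
    · exact differentiableAt_id.sub_const _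
  exact h2.differentiableWithinAt

/-- If `‖MM z‖ ≥ 2` for a point of the disc then `z` is well below the real axis:
`‖z - PP‖² ≥ 4 ‖z - conj PP‖²` gives `10 sa Im z ≤ 6 ka Re z - 3 (1 + ‖z‖²) ≤ -3 (1 - ka)`. -/
theorem im_le_of_two_le {z : ℂ} (hz : ‖z‖ < 1) (h : 2 ≤ ‖MM z‖) :
    z.im ≤ -(3 * (1 - ka) / (10 * sa)) := by
  have h1 := sa_pos
  have h2 := ka_pos
  have h3 := ka_lt
  have h4 : 0 < ‖z - conj PP‖ ^ 2 := by
    have : 0 < ‖z - conj PP‖ := norm_pos_iff.2 (sub_ne_zero.2 (ne_conj hz))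
    positivity
  have h5 : 4 ≤ ‖MM z‖ ^ 2 := by nlinarith
  rw [norm_MM_sq, le_div_iff₀ h4, normSq_sub, normSq_sub_conj] at h5
  rw [← neg_div, le_div_iff₀ (by positivity)]
  have h6 := ka_sq
  nlinarith [sq_nonneg (z.re - ka), mul_pos h2 (sub_pos.2 h3), sq_nonneg z.im]

end Pool.Agent.H99D
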