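import Pool.Agent.H99.Circ.Defs

/-!
# Definitions: the disc cut along a circular arc
-/

set_option autoImplicit false

open Complex ComplexConjugate Metric Set

namespace Pool.Agent.H99D

/-- The angle `2π/5`. -/
noncomputable def AA : ℝ := 2 * Real.pi / 5

/-- The foot `e^{2πi/5}` of the arc on the unit circle. -/
noncomputable def PP : ℂ := exp (AA * I)

/-- `cos (2π/5)`. -/
noncomputable def ka : ℝ := Real.cos AA

/-- `sin (2π/5)`. -/
noncomputable def sa : ℝ := Real.sin AA

/-- The involution exchanging the unit disc and the upper half plane. -/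
noncomputable def MM (w : ℂ) : ℂ := conj PP * (w - PP) / (w - conj PP)

/-- The unit disc cut along the curve `-r e^{-iΘ(r)}`, `0 ≤ r < 1`. -/
def Dom (Θ : ℝ → ℝ) : Set ℂ := {z | ‖z‖ < 1 ∧ z * exp (Θ ‖z‖ * I) ∈ slitPlane}

/-- The function `Θ` for which the cut is `e^{-iτ}` times the arc
`{Re z = ka |z|², Im z > 0}`. -/
noncomputable def Th (τ : ℝ) (r : ℝ) : ℝ := Real.pi + τ - Real.arccos (ka * r)

/-- The disc cut along the arc of the circle `Re z = ka |z|²` from `0` to `PP`. -/
noncomputable def D0 : Set ℂ := Dom (Th 0)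

/-- The pole (before the rotation). -/
noncomputable def pp (δ : ℝ) : ℂ := MM (δ ^ 2 * exp ((AA / 2 : ℝ) * I))

/-- A distance which decreases under holomorphic maps of the upper half plane into `D`. -/
structure HDist (D : Set ℂ) (dd : ℂ → ℂ → ℝ) : Prop where
  tri : ∀ x y z, dd x z ≤ dd x y + dd y z
  map : ∀ f : ℂ → ℂ, DifferentiableOn ℂ f {z | 0 < z.im} → MapsTo f {z | 0 < z.im} D →
    ∀ u v : ℂ, 0 < u.im → 0 < v.im →
      u.im * v.im / (‖u‖ + ‖v‖) ^ 2 ≤ Real.exp (-dd (f u) (f v))

end Pool.Agent.H99D
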