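import Pool.Agent.H99S.Rmt
import Pool.Agent.H99S.GreenLevel

/-!
# An upper bound for Green's functions

`B ∘ ψ` maps the disc to itself and `0` to `0`, so `‖B (ψ ζ)‖ ≤ ‖ζ‖` (Schwarz); with `ζ = φ z`,
`g z = - log ‖ζ‖` by `H99S.green_eq`.
-/

set_option autoImplicit false

open Complex ComplexConjugate Metric Set

namespace Pool.Agent.H99D

open Pool.Agent.H99.Circ

theorem green_le_of_map {D : Set ℂ} (hD : IsOpen D) (hsc : IsSimplyConnected D) (hne : D ≠ univ)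
    {a : ℂ} (ha : a ∈ D) {g : ℂ → ℝ} (hg : IsGreen D a g) {B : ℂ → ℂ}
    (hB : DifferentiableOn ℂ B D) (hm : MapsTo B D (ball 0 1)) (hBa : B a = 0) {z : ℂ}
    (hz : z ∈ D) (hBz : B z ≠ 0) : g z ≤ -Real.log ‖B z‖ := by
  obtain ⟨ψ, φ, hψ, hφ, hψm, hφm, hφψ, hψφ, hψ0⟩ := H99S.riemann_sc hD hsc hne ha
  have hζ : φ z ∈ ball (0 : ℂ) 1 := hφm hz
  have hζ0 : φ z ≠ 0 := by
    intro h
    apply hBz
    rw [← hψφ z hz, h, hψ0, hBa]
  have h1 : g z = -Real.log ‖φ z‖ := by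
    have := H99S.green_eq hD hψ hφ hψm hφm hφψ hψφ hψ0 hg hζ hζ0
    rwa [hψφ z hz] at this
  have hf : DifferentiableOn ℂ (fun w => B (ψ w)) (ball 0 1) := hB.comp hψ hψm
  have hfm : MapsTo (fun w => B (ψ w)) (ball 0 1) (ball 0 1) := fun w hw => hm (hψm hw)
  have h2 : ‖B (ψ (φ z))‖ ≤ ‖φ z‖ :=
    Complex.norm_le_norm_of_mapsTo_ball hf (hfm.mono_right ball_subset_closedBall)
      (by simp only [hψ0, hBa]) (mem_ball_zero_iff.1 hζ)
  rw [hψφ z hz] at h2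
  rw [h1]
  exact neg_le_neg (Real.log_le_log (norm_pos_iff.2 hBz) h2)

end Pool.Agent.H99D
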