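import Pool.Agent.H99D.Twist
import Pool.Agent.H99D.Upper

/-!
# The Green's function of the disc cut along `(-1, 0]` near the cut and the circle

`green_le_of_map` with `B z = (F z - F a) / (F z + F a)`, `F z = h / (1 - h²)`, `h = exp (log z / 2)`,
`Re F > 0` since `1 / F = 1 / h - h` and `Re (1 / h - h) = Re h (1 / ‖h‖² - 1)`.  For
`z = r e^{i (π - η)}`: `Re F z = √r sin (η/2) (1 - r) / ‖1 - z‖² ≤ (1 - r) η / 2`, `‖F z‖ ≤ 1`,
`F a = √a / (1 - a) ≥ 2`, `- log ‖B‖ = ½ log (1 + 4 F a Re F z / ‖F z - F a‖²)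
≤ 2 F a Re F z / (F a - 1)² ≤ 8 Re F z / F a ≤ 8 (1 - r) η (1 - a)`.
-/

set_option autoImplicit false

open Complex ComplexConjugate Metric Set

namespace Pool.Agent.H99D

open Pool.Agent.H99.Circ

/-- the square root `exp (log z / 2)` -/
noncomputable def hh (z : ℂ) : ℂ := exp (log z / 2)

theorem hh_sq {z : ℂ} (hz : z ≠ 0) : hh z * hh z = z := by
  unfold hh
  rw [← Complex.exp_add, add_halves, Complex.exp_log hz]

theorem hh_re (z : ℂ) : (hh z).re = ‖hh z‖ * Real.cos (arg z / 2) := by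
  unfold hh
  rw [Complex.exp_re, Complex.norm_exp]
  congr 2
  simp [Complex.log_im]

theorem norm_hh_sq {z : ℂ} (hz : z ≠ 0) : ‖hh z‖ ^ 2 = ‖z‖ := by
  rw [pow_two, ← norm_mul, hh_sq hz]

theorem hh_re_pos {z : ℂ} (hz : z ∈ slitPlane) : 0 < (hh z).re := by
  rw [hh_re]
  have h0 : 0 < ‖hh z‖ := norm_pos_iff.2 (Complex.exp_ne_zero _)
  have h1 := Complex.neg_pi_lt_arg z
  have h2 := Complex.arg_le_pi z
  have h3 := (Complex.mem_slitPlane_iff_arg.1 hz).1
  have h4 : arg z < Real.pi := lt_of_le_of_ne h2 h3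
  exact mul_pos h0 (Real.cos_pos_of_mem_Ioo ⟨by linarith, by linarith⟩)

/-- `√z / (1 - z)` -/
noncomputable def FF (z : ℂ) : ℂ := hh z / (1 - z)

theorem FF_re {z : ℂ} (hz : z ≠ 0) : (FF z).re = (hh z).re * (1 - ‖z‖) / ‖1 - z‖ ^ 2 := by
  have h1 := hh_sq hz
  have h2 := norm_hh_sq hz
  have hre : z.re = (hh z).re ^ 2 - (hh z).im ^ 2 := by
    conv_lhs => rw [← h1]
    rw [mul_re]
    ring
  have him : z.im = 2 * (hh z).re * (hh z).im := by
    conv_lhs => rw [← h1]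
    rw [mul_im]
    ring
  have hn : ‖z‖ = (hh z).re ^ 2 + (hh z).im ^ 2 := by
    rw [← h2, ← Complex.normSq_eq_norm_sq, Complex.normSq_apply]
    ring
  unfold FF
  rw [Complex.div_re, Complex.normSq_eq_norm_sq, ← add_div]
  congr 1
  rw [sub_re, sub_im, one_re, one_im, hn, hre, him]
  ring

theorem FF_diff : DifferentiableOn ℂ FF {z | ‖z‖ < 1 ∧ z ∈ slitPlane} := by
  rintro z ⟨hz1, hz2⟩
  have h1 : (1 : ℂ) - z ≠ 0 := by
    intro h
    have h2 : z = 1 := (sub_eq_zero.1 h).symm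
    rw [h2, norm_one] at hz1
    exact lt_irrefl _ hz1
  have h2 : DifferentiableAt ℂ FF z := by
    unfold FF hh
    refine DifferentiableAt.div ?_ ?_ h1
    · exact ((Complex.differentiableAt_log hz2).div_const 2).cexp
    · exact (differentiableAt_const _).sub differentiableAt_id
  exact h2.differentiableWithinAt

theorem norm_sq_add (w : ℂ) (A : ℝ) : ‖w + A‖ ^ 2 = ‖w - A‖ ^ 2 + 4 * A * w.re := by
  rw [← Complex.normSq_eq_norm_sq, ← Complex.normSq_eq_norm_sq, Complex.normSq_apply,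
    Complex.normSq_apply]
  simp only [add_re, sub_re, add_im, sub_im, ofReal_re, ofReal_im]
  ring

theorem disc_up {a : ℝ} (ha : 3 / 4 ≤ a) (ha1 : a < 1) {g : ℂ → ℝ}
    (hg : IsGreen {z | ‖z‖ < 1 ∧ z ∈ slitPlane} a g) {r η : ℝ} (hr : 0 < r) (hr1 : r < 1)
    (hη : 0 < η) (hη1 : η ≤ Real.pi / 2) :
    g (r * exp ((Real.pi - η : ℝ) * I)) ≤ 8 * (1 - r) * η * (1 - a) := by
  have hpi := Real.pi_pos
  have hdom : Dom (fun _ => 0) = {z | ‖z‖ < 1 ∧ z ∈ slitPlane} := by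
    ext z
    simp [Dom]
  have hopen : IsOpen {z : ℂ | ‖z‖ < 1 ∧ z ∈ slitPlane} := by
    rw [← hdom]
    exact dom_open continuous_const
  have hsc : IsSimplyConnected {z : ℂ | ‖z‖ < 1 ∧ z ∈ slitPlane} := by
    rw [← hdom]
    exact dom_sc continuous_const
  have hne : {z : ℂ | ‖z‖ < 1 ∧ z ∈ slitPlane} ≠ univ := by
    intro h
    have h1 : (1 : ℂ) ∈ {z : ℂ | ‖z‖ < 1 ∧ z ∈ slitPlane} := by
      rw [h]
      exact mem_univ _
    have h2 := h1.1
    rw [norm_one] at h2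
    exact lt_irrefl _ h2
  have ha0 : 0 < a := by linarith
  have haD : (a : ℂ) ∈ {z : ℂ | ‖z‖ < 1 ∧ z ∈ slitPlane} := by
    refine ⟨?_, ?_⟩
    · rw [Complex.norm_real, Real.norm_eq_abs, abs_of_pos ha0]
      exact ha1
    · exact Complex.ofReal_mem_slitPlane.2 ha0
  -- the value at `a`
  set s : ℝ := Real.exp (Real.log a / 2) with hs
  have hs0 : 0 < s := Real.exp_pos _
  have hs2 : s * s = a := by
    rw [hs, ← Real.exp_add, add_halves, Real.exp_log ha0]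
  have hs1 : 1 / 2 ≤ s := by nlinarith
  set A : ℝ := s / (1 - a) with hA
  have h1a : 0 < 1 - a := by linarith
  have hA2 : 2 ≤ A := by
    rw [hA, le_div_iff₀ h1a]
    linarith
  have hFa : FF a = (A : ℂ) := by
    unfold FF hh
    rw [hA, hs]
    push_cast
    rw [Complex.ofReal_log ha0.le]
  -- the map
  have hFpos : ∀ z ∈ {z : ℂ | ‖z‖ < 1 ∧ z ∈ slitPlane}, 0 < (FF z).re := by
    rintro z ⟨hz1, hz2⟩
    rw [FF_re (Complex.slitPlane_ne_zero hz2)]
    have h1 : 0 < ‖(1 : ℂ) - z‖ := by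
      rw [norm_pos_iff]
      intro h
      have h2 : z = 1 := (sub_eq_zero.1 h).symm
      rw [h2, norm_one] at hz1
      exact lt_irrefl _ hz1
    have h2 := hh_re_pos hz2
    have h3 : 0 < 1 - ‖z‖ := by linarith
    positivity
  have hden : ∀ z ∈ {z : ℂ | ‖z‖ < 1 ∧ z ∈ slitPlane}, FF z + (A : ℂ) ≠ 0 := by
    intro z hz h
    have h1 := congrArg Complex.re h
    rw [add_re, ofReal_re, zero_re] at h1
    have h2 := hFpos z hz
    linarith
  have hBd : DifferentiableOn ℂ (fun z => (FF z - (A : ℂ)) / (FF z + (A : ℂ)))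
      {z | ‖z‖ < 1 ∧ z ∈ slitPlane} :=
    (FF_diff.sub_const _).div (FF_diff.add_const _) hden
  have hBm : MapsTo (fun z => (FF z - (A : ℂ)) / (FF z + (A : ℂ)))
      {z : ℂ | ‖z‖ < 1 ∧ z ∈ slitPlane} (ball 0 1) := by
    intro z hz
    rw [mem_ball_zero_iff]
    show ‖(FF z - (A : ℂ)) / (FF z + (A : ℂ))‖ < 1
    have h1 : 0 < ‖FF z + (A : ℂ)‖ := norm_pos_iff.2 (hden z hz)
    rw [norm_div, div_lt_one h1]
    have h2 := norm_sq_add (FF z) A
    have h3 := hFpos z hz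
    have h4 : 0 < 4 * A * (FF z).re := by positivity
    nlinarith [norm_nonneg (FF z - (A : ℂ)), norm_nonneg (FF z + (A : ℂ))]
  have hBa : (fun z => (FF z - (A : ℂ)) / (FF z + (A : ℂ))) (a : ℂ) = 0 := by
    show (FF a - (A : ℂ)) / (FF a + (A : ℂ)) = 0
    rw [hFa, sub_self, zero_div]
  -- the point
  set z : ℂ := r * exp ((Real.pi - η : ℝ) * I) with hz
  have harg : arg z = Real.pi - η := by
    rw [hz, Complex.exp_mul_I]
    exact Complex.arg_mul_cos_add_sin_mul_I hr ⟨by linarith, by linarith⟩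
  have hnz : ‖z‖ = r := by
    rw [hz, norm_mul, Complex.norm_exp_ofReal_mul_I, mul_one, Complex.norm_real, Real.norm_eq_abs,
      abs_of_pos hr]
  have hz0 : z ≠ 0 := by
    rw [← norm_pos_iff, hnz]
    exact hr
  have hzs : z ∈ slitPlane := by
    rw [Complex.mem_slitPlane_iff_arg, harg]
    exact ⟨by linarith, hz0⟩
  have hzD : z ∈ {z : ℂ | ‖z‖ < 1 ∧ z ∈ slitPlane} := ⟨by rw [hnz]; exact hr1, hzs⟩
  have hzre : z.re ≤ 0 := by
    rw [hz, Complex.re_ofReal_mul, Complex.exp_ofReal_mul_I_re, Real.cos_pi_sub]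
    have h1 : 0 ≤ Real.cos η := Real.cos_nonneg_of_mem_Icc ⟨by linarith, hη1⟩
    nlinarith
  have h1z : 1 ≤ ‖1 - z‖ := by
    have h1 := Complex.re_le_norm (1 - z)
    rw [sub_re, one_re] at h1
    linarith
  have hhn : ‖hh z‖ ≤ 1 := by
    have h1 := norm_hh_sq hz0
    rw [hnz] at h1
    nlinarith [norm_nonneg (hh z)]
  have hhre : (hh z).re ≤ η / 2 := by
    rw [hh_re, harg]
    have h1 : Real.cos ((Real.pi - η) / 2) = Real.sin (η / 2) := by
      rw [← Real.cos_pi_div_two_sub]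
      congr 1
      ring
    rw [h1]
    have h2 : Real.sin (η / 2) ≤ η / 2 := Real.sin_le (by linarith)
    have h3 : 0 ≤ Real.sin (η / 2) := Real.sin_nonneg_of_nonneg_of_le_pi (by linarith) (by linarith)
    calc ‖hh z‖ * Real.sin (η / 2) ≤ 1 * Real.sin (η / 2) := mul_le_mul_of_nonneg_right hhn h3
      _ ≤ η / 2 := by linarith
  have hFre : (FF z).re ≤ (1 - r) * (η / 2) := by
    rw [FF_re hz0, hnz, div_le_iff₀ (by positivity)]
    have h1 : 0 ≤ 1 - r := by linarith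
    have h2 : 1 ≤ ‖1 - z‖ ^ 2 := by nlinarith
    have h3 : (hh z).re * (1 - r) ≤ η / 2 * (1 - r) := mul_le_mul_of_nonneg_right hhre h1
    have h4 : 0 ≤ (1 - r) * (η / 2) := by positivity
    nlinarith
  have hFn : ‖FF z‖ ≤ 1 := by
    unfold FF
    rw [norm_div, div_le_one (by linarith)]
    linarith
  have hFA : A - 1 ≤ ‖FF z - (A : ℂ)‖ := by
    have h1 : ‖(A : ℂ)‖ ≤ ‖FF z - (A : ℂ)‖ + ‖FF z‖ := by
      calc ‖(A : ℂ)‖ = ‖FF z - (FF z - (A : ℂ))‖ := by rw [sub_sub_cancel]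
        _ ≤ ‖FF z‖ + ‖FF z - (A : ℂ)‖ := norm_sub_le _ _
        _ = _ := add_comm _ _
    rw [Complex.norm_real, Real.norm_eq_abs, abs_of_pos (by linarith)] at h1
    linarith
  have hm0 : 0 < ‖FF z - (A : ℂ)‖ := by linarith
  have hp0 : 0 < ‖FF z + (A : ℂ)‖ := norm_pos_iff.2 (hden z hzD)
  have hBz : (fun z => (FF z - (A : ℂ)) / (FF z + (A : ℂ))) z ≠ 0 :=
    div_ne_zero (norm_pos_iff.1 hm0) (norm_pos_iff.1 hp0)
  have hmain := green_le_of_map hopen hsc hne haD hg hBd hBm hBa hzD hBz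
  have hlog : -Real.log ‖(FF z - (A : ℂ)) / (FF z + (A : ℂ))‖ ≤
      1 / 2 * (4 * A * (FF z).re / ‖FF z - (A : ℂ)‖ ^ 2) := by
    have h1 : -Real.log ‖(FF z - (A : ℂ)) / (FF z + (A : ℂ))‖ =
        1 / 2 * Real.log (‖FF z + (A : ℂ)‖ ^ 2 / ‖FF z - (A : ℂ)‖ ^ 2) := by
      rw [norm_div, ← div_pow, Real.log_pow, Real.log_div hm0.ne' hp0.ne',
        Real.log_div hp0.ne' hm0.ne']
      push_cast
      ring
    rw [h1]
    have h2 : 0 < ‖FF z + (A : ℂ)‖ ^ 2 / ‖FF z - (A : ℂ)‖ ^ 2 := by positivity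
    have h3 := Real.log_le_sub_one_of_pos h2
    have h4 : ‖FF z + (A : ℂ)‖ ^ 2 / ‖FF z - (A : ℂ)‖ ^ 2 - 1 =
        4 * A * (FF z).re / ‖FF z - (A : ℂ)‖ ^ 2 := by
      rw [norm_sq_add, add_div, div_self (by positivity)]
      ring
    rw [h4] at h3
    linarith
  have hfin : 1 / 2 * (4 * A * (FF z).re / ‖FF z - (A : ℂ)‖ ^ 2) ≤ 8 * (1 - r) * η * (1 - a) := by
    have h0 := hFpos z hzD
    have h1 : (A / 2) ^ 2 ≤ ‖FF z - (A : ℂ)‖ ^ 2 := by
      have : A / 2 ≤ ‖FF z - (A : ℂ)‖ := by linarith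
      have h5 : 0 ≤ A / 2 := by linarith
      nlinarith
    have hA0 : 0 < A := by linarith
    have h2 : 4 * A * (FF z).re / ‖FF z - (A : ℂ)‖ ^ 2 ≤ 4 * A * (FF z).re / (A / 2) ^ 2 :=
      div_le_div_of_nonneg_left (by positivity) (by positivity) h1
    have h3 : 4 * A * (FF z).re / (A / 2) ^ 2 = 16 * (FF z).re * (1 / A) := by
      field_simp
      ring
    have h4 : 1 / A ≤ 2 * (1 - a) := by
      rw [hA, one_div_div, div_le_iff₀ hs0]
      nlinarith
    have h5 : 16 * (FF z).re * (1 / A) ≤ 16 * ((1 - r) * (η / 2)) * (2 * (1 - a)) := by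
      have h6 : 0 ≤ 1 / A := by positivity
      have h7 : 0 ≤ 1 - r := by linarith
      have h8 : 0 ≤ 16 * ((1 - r) * (η / 2)) := by positivity
      exact mul_le_mul (by linarith) h4 h6 h8
    rw [h3] at h2
    nlinarith
  exact le_trans hmain (le_trans hlog hfin)

end Pool.Agent.H99D
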