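import Pool.Agent.H99D.Incl

/-!
# Three holomorphic maps of the upper half plane into the cut disc

`edgeOut`: `f u = MM (exp (2/5 log u))`, `u = y⁵ e^{5iψ/2}`.
`edgeIn`: `f u = MM (PP exp (3/5 log u))`, `u = y⁵ e^{5iφ/3}`.
`edgeE`: `f u = (1 - exp (log u / 2)) / (1 + exp (log u / 2))`, `u = ((1 - z) / (1 + z))²`.
The images are in `{Re z < ka ‖z‖²}`, `{Re z > ka ‖z‖²}` (by `re_sub`: the sign is that of
`Im (w conj PP)`, `w = ρ e^{iψ}`: `sin (ψ - 2π/5)`), `{Im z < 0}`.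
-/

set_option autoImplicit false

open Complex ComplexConjugate Metric Set

namespace Pool.Agent.H99D

/-- The logarithm of a point in polar coordinates. -/
theorem log_polar5 {y θ : ℝ} (hy : 0 < y) (hθ : θ ∈ Ioo 0 Real.pi) :
    Complex.log ((y : ℂ) ^ 5 * exp (θ * I)) = 5 * (Real.log y : ℂ) + θ * I := by
  have h : (y : ℂ) ^ 5 * exp (θ * I) = exp (5 * (Real.log y : ℂ) + θ * I) := by
    rw [exp_add]
    congr 1
    rw [Complex.ofReal_log hy.le, show (5 : ℂ) * Complex.log y = ((5 : ℕ) : ℂ) * Complex.log y by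
      norm_num, Complex.exp_nat_mul, Complex.exp_log]
    exact_mod_cast hy.ne'
  rw [h, Complex.log_exp]
  · simp
    linarith [hθ.1, Real.pi_pos]
  · simp
    linarith [hθ.2]

theorem exp_re_im (a θ : ℝ) :
    (exp ((a : ℂ) + θ * I)).im = Real.exp a * Real.sin θ ∧
      (exp ((a : ℂ) + θ * I)).re = Real.exp a * Real.cos θ := by
  constructor
  · rw [Complex.exp_im]; simp
  · rw [Complex.exp_re]; simp

theorem arg_mem {u : ℂ} (hu : 0 < u.im) : u.arg ∈ Ioo 0 Real.pi := by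
  constructor
  · have h0 : 0 ≤ u.arg := Complex.arg_nonneg_iff.mpr hu.le
    rcases h0.lt_or_eq with h | h
    · exact h
    · have := Complex.arg_eq_zero_iff.mp h.symm
      rw [this.2] at hu
      exact absurd hu (lt_irrefl _)
  · have h0 : u.arg ≤ Real.pi := Complex.arg_le_pi u
    rcases h0.lt_or_eq with h | h
    · exact h
    · have := Complex.arg_eq_pi_iff.mp h
      rw [this.2] at hu
      exact absurd hu (lt_irrefl _)

theorem scaled_log (c : ℝ) (u : ℂ) :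
    (c : ℂ) * Complex.log u = ((c * Real.log ‖u‖ : ℝ) : ℂ) + ((c * u.arg : ℝ) : ℂ) * I := by
  rw [show Complex.log u = (Real.log ‖u‖ : ℂ) + u.arg * I from rfl]
  push_cast
  ring

theorem mem_slit {u : ℂ} (hu : 0 < u.im) : u ∈ slitPlane :=
  Or.inr hu.ne'

theorem diff_powmap (c : ℝ) :
    DifferentiableOn ℂ (fun u : ℂ => exp ((c : ℂ) * Complex.log u)) {z | 0 < z.im} := by
  intro u hu
  apply DifferentiableAt.differentiableWithinAt
  exact ((Complex.differentiableAt_log (mem_slit hu)).const_mul _).cexp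

theorem im_polar (r θ : ℝ) : ((r : ℂ) * exp (θ * I)).im = r * Real.sin θ := by
  rw [Complex.im_ofReal_mul, Complex.exp_ofReal_mul_I_im]

theorem norm_polar {r : ℝ} (hr : 0 ≤ r) (θ : ℝ) : ‖(r : ℂ) * exp (θ * I)‖ = r := by
  rw [norm_mul, Complex.norm_exp_ofReal_mul_I, mul_one, Complex.norm_real, Real.norm_eq_abs,
    abs_of_nonneg hr]

theorem conj_PP : conj PP = exp (((-AA : ℝ) : ℂ) * I) := by
  rw [PP, ← Complex.exp_conj]
  congr 1
  simp

/-- A point of the upper half plane whose argument is not `AA` is mapped into the cut disc. -/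
theorem MM_mem {w : ℂ} (hw : 0 < w.im) (h : (w * conj PP).im ≠ 0) : MM w ∈ D0 := by
  apply mem_D0_of_re (MM_norm_lt hw)
  intro h1
  have h2 := re_sub hw.le
  rw [h1, sub_self] at h2
  have h3 : 0 < ‖w - conj PP‖ := lt_of_lt_of_le sa_pos (sa_le hw.le)
  have h4 : 2 * sa * (w * conj PP).im / ‖w - conj PP‖ ^ 2 ≠ 0 := by
    apply div_ne_zero
    · exact mul_ne_zero (mul_ne_zero two_ne_zero sa_pos.ne') h
    · positivity
  exact h4 h2.symm

theorem edgeOut {dd : ℂ → ℂ → ℝ} (hd : HDist D0 dd) {y₁ y₂ ψ₁ ψ₂ : ℝ} (hy₁ : 0 < y₁)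
    (hy₂ : 0 < y₂) (hψ₁ : ψ₁ ∈ Ioo 0 AA) (hψ₂ : ψ₂ ∈ Ioo 0 AA) :
    (y₁ ^ 5 * Real.sin (5 / 2 * ψ₁)) * (y₂ ^ 5 * Real.sin (5 / 2 * ψ₂)) / (y₁ ^ 5 + y₂ ^ 5) ^ 2 ≤
      Real.exp (-dd (MM (y₁ ^ 2 * exp (ψ₁ * I))) (MM (y₂ ^ 2 * exp (ψ₂ * I)))) := by
  have hA : AA = 2 * Real.pi / 5 := rfl
  -- the map
  have key := hd.map (fun u => MM (exp (((2 / 5 : ℝ) : ℂ) * Complex.log u))) ?_ ?_
  · have hth : ∀ ψ : ℝ, ψ ∈ Ioo 0 AA → 5 / 2 * ψ ∈ Ioo 0 Real.pi := by
      intro ψ hψ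
      constructor
      · linarith [hψ.1]
      · have := hψ.2
        rw [hA] at this
        linarith
    have hval : ∀ y ψ : ℝ, 0 < y → ψ ∈ Ioo 0 AA →
        exp (((2 / 5 : ℝ) : ℂ) * Complex.log ((y : ℂ) ^ 5 * exp (((5 / 2 * ψ : ℝ) : ℂ) * I))) =
          (y : ℂ) ^ 2 * exp (ψ * I) := by
      intro y ψ hy hψ
      rw [log_polar5 hy (hth ψ hψ)]
      rw [show ((2 / 5 : ℝ) : ℂ) * (5 * (Real.log y : ℂ) + ((5 / 2 * ψ : ℝ) : ℂ) * I) =
        ((2 : ℕ) : ℂ) * (Real.log y : ℂ) + ψ * I by push_cast; ring]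
      rw [exp_add, Complex.exp_nat_mul, ← Complex.ofReal_exp, Real.exp_log hy]
    have k := key ((y₁ : ℂ) ^ 5 * exp (((5 / 2 * ψ₁ : ℝ) : ℂ) * I))
      ((y₂ : ℂ) ^ 5 * exp (((5 / 2 * ψ₂ : ℝ) : ℂ) * I)) ?_ ?_
    · beta_reduce at k
      rw [hval y₁ ψ₁ hy₁ hψ₁, hval y₂ ψ₂ hy₂ hψ₂] at k
      rw [← Complex.ofReal_pow, ← Complex.ofReal_pow, im_polar, im_polar,
        norm_polar (by positivity), norm_polar (by positivity)] at k
      exact_mod_cast k
    · rw [← Complex.ofReal_pow, im_polar]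
      exact mul_pos (by positivity) (Real.sin_pos_of_mem_Ioo (hth ψ₁ hψ₁))
    · rw [← Complex.ofReal_pow, im_polar]
      exact mul_pos (by positivity) (Real.sin_pos_of_mem_Ioo (hth ψ₂ hψ₂))
  · apply MM_diff.comp (diff_powmap _)
    intro u hu
    have ha := arg_mem hu
    show 0 < (exp (((2 / 5 : ℝ) : ℂ) * Complex.log u)).im
    rw [scaled_log, (exp_re_im _ _).1]
    apply mul_pos (Real.exp_pos _)
    apply Real.sin_pos_of_mem_Ioo
    constructor
    · linarith [ha.1]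
    · linarith [ha.2, ha.1]
  · intro u hu
    have ha := arg_mem hu
    apply MM_mem
    · rw [scaled_log, (exp_re_im _ _).1]
      apply mul_pos (Real.exp_pos _)
      apply Real.sin_pos_of_mem_Ioo
      constructor
      · linarith [ha.1]
      · linarith [ha.2, ha.1]
    · rw [scaled_log, conj_PP, ← exp_add, add_assoc, ← add_mul, ← Complex.ofReal_add,
        (exp_re_im _ _).1]
      apply mul_ne_zero (Real.exp_pos _).ne'
      apply ne_of_lt
      apply Real.sin_neg_of_neg_of_neg_pi_lt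
      · rw [hA]; linarith [ha.2]
      · rw [hA]; linarith [ha.1, Real.pi_pos]

theorem edgeIn {dd : ℂ → ℂ → ℝ} (hd : HDist D0 dd) {y₁ y₂ φ₁ φ₂ : ℝ} (hy₁ : 0 < y₁)
    (hy₂ : 0 < y₂) (hφ₁ : φ₁ ∈ Ioo 0 (3 * Real.pi / 5)) (hφ₂ : φ₂ ∈ Ioo 0 (3 * Real.pi / 5)) :
    (y₁ ^ 5 * Real.sin (5 / 3 * φ₁)) * (y₂ ^ 5 * Real.sin (5 / 3 * φ₂)) / (y₁ ^ 5 + y₂ ^ 5) ^ 2 ≤
      Real.exp (-dd (MM (y₁ ^ 3 * exp ((AA + φ₁ : ℝ) * I))) (MM (y₂ ^ 3 * exp ((AA + φ₂ : ℝ) * I))))
      := by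
  have hA : AA = 2 * Real.pi / 5 := rfl
  have key := hd.map (fun u => MM (exp ((AA : ℂ) * I) * exp (((3 / 5 : ℝ) : ℂ) * Complex.log u)))
    ?_ ?_
  · have hth : ∀ φ : ℝ, φ ∈ Ioo 0 (3 * Real.pi / 5) → 5 / 3 * φ ∈ Ioo 0 Real.pi := by
      intro φ hφ
      constructor
      · linarith [hφ.1]
      · linarith [hφ.2]
    have hval : ∀ y φ : ℝ, 0 < y → φ ∈ Ioo 0 (3 * Real.pi / 5) →
        exp ((AA : ℂ) * I) * exp (((3 / 5 : ℝ) : ℂ) *
          Complex.log ((y : ℂ) ^ 5 * exp (((5 / 3 * φ : ℝ) : ℂ) * I))) =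
          (y : ℂ) ^ 3 * exp (((AA + φ : ℝ) : ℂ) * I) := by
      intro y φ hy hφ
      rw [log_polar5 hy (hth φ hφ)]
      rw [show ((3 / 5 : ℝ) : ℂ) * (5 * (Real.log y : ℂ) + ((5 / 3 * φ : ℝ) : ℂ) * I) =
        ((3 : ℕ) : ℂ) * (Real.log y : ℂ) + φ * I by push_cast; ring]
      rw [exp_add, Complex.exp_nat_mul, ← Complex.ofReal_exp, Real.exp_log hy]
      push_cast
      rw [add_mul, exp_add]
      ring
    have k := key ((y₁ : ℂ) ^ 5 * exp (((5 / 3 * φ₁ : ℝ) : ℂ) * I))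
      ((y₂ : ℂ) ^ 5 * exp (((5 / 3 * φ₂ : ℝ) : ℂ) * I)) ?_ ?_
    · beta_reduce at k
      rw [hval y₁ φ₁ hy₁ hφ₁, hval y₂ φ₂ hy₂ hφ₂] at k
      rw [← Complex.ofReal_pow, ← Complex.ofReal_pow, im_polar, im_polar,
        norm_polar (by positivity), norm_polar (by positivity)] at k
      exact_mod_cast k
    · rw [← Complex.ofReal_pow, im_polar]
      exact mul_pos (by positivity) (Real.sin_pos_of_mem_Ioo (hth φ₁ hφ₁))
    · rw [← Complex.ofReal_pow, im_polar]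
      exact mul_pos (by positivity) (Real.sin_pos_of_mem_Ioo (hth φ₂ hφ₂))
  · have h1 : DifferentiableOn ℂ (fun u : ℂ => exp ((AA : ℂ) * I) *
        exp (((3 / 5 : ℝ) : ℂ) * Complex.log u)) {z | 0 < z.im} :=
      (diff_powmap _).const_mul _
    apply MM_diff.comp h1
    intro u hu
    have ha := arg_mem hu
    show 0 < (exp ((AA : ℂ) * I) * exp (((3 / 5 : ℝ) : ℂ) * Complex.log u)).im
    rw [scaled_log, ← exp_add, add_comm, add_assoc, ← add_mul, ← Complex.ofReal_add,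
        (exp_re_im _ _).1]
    apply mul_pos (Real.exp_pos _)
    apply Real.sin_pos_of_mem_Ioo
    constructor
    · linarith [ha.1, AA_pos]
    · rw [hA]; linarith [ha.2, ha.1]
  · intro u hu
    have ha := arg_mem hu
    apply MM_mem
    · rw [scaled_log, ← exp_add, add_comm, add_assoc, ← add_mul, ← Complex.ofReal_add,
        (exp_re_im _ _).1]
      apply mul_pos (Real.exp_pos _)
      apply Real.sin_pos_of_mem_Ioo
      constructor
      · linarith [ha.1, AA_pos]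
      · rw [hA]; linarith [ha.2, ha.1]
    · rw [scaled_log, conj_PP, ← exp_add, ← exp_add, add_comm (↑AA * I), add_assoc, add_assoc,
        ← add_mul, ← add_mul, ← Complex.ofReal_add, ← Complex.ofReal_add,
        (exp_re_im _ _).1]
      apply mul_ne_zero (Real.exp_pos _).ne'
      apply ne_of_gt
      apply Real.sin_pos_of_mem_Ioo
      constructor
      · linarith [ha.1]
      · linarith [ha.2, ha.1, Real.pi_pos]

theorem one_add_ne {z : ℂ} (hz : ‖z‖ < 1) : 1 + z ≠ 0 := by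
  intro h
  have : z = -1 := by linear_combination h
  rw [this] at hz
  simp at hz

/-- `(1 - z) / (1 + z)` has real part `(1 - ‖z‖²) / ‖1 + z‖²` and imaginary part
`- 2 Im z / ‖1 + z‖²`. -/
theorem cay_re_im (z : ℂ) :
    ((1 - z) / (1 + z)).re = (1 - ‖z‖ ^ 2) / ‖1 + z‖ ^ 2 ∧
      ((1 - z) / (1 + z)).im = -2 * z.im / ‖1 + z‖ ^ 2 := by
  rw [Complex.div_re, Complex.div_im, ← Complex.normSq_eq_norm_sq, ← Complex.normSq_eq_norm_sq,
    ← add_div, ← sub_div]
  constructor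
  · congr 1
    rw [Complex.normSq_apply]
    simp
    ring
  · congr 1
    simp
    ring

theorem edgeE {dd : ℂ → ℂ → ℝ} (hd : HDist D0 dd) {z₁ z₂ : ℂ} (h₁ : ‖z₁‖ < 1) (h₂ : ‖z₂‖ < 1)
    (hi₁ : z₁.im < 0) (hi₂ : z₂.im < 0) :
    (((1 - z₁) / (1 + z₁)) ^ 2).im * (((1 - z₂) / (1 + z₂)) ^ 2).im /
      (‖((1 - z₁) / (1 + z₁)) ^ 2‖ + ‖((1 - z₂) / (1 + z₂)) ^ 2‖) ^ 2 ≤ Real.exp (-dd z₁ z₂) := by
  -- the square root
  have hs : ∀ u : ℂ, 0 < u.im → 0 < (exp (((1 / 2 : ℝ) : ℂ) * Complex.log u)).re ∧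
      0 < (exp (((1 / 2 : ℝ) : ℂ) * Complex.log u)).im := by
    intro u hu
    have ha := arg_mem hu
    rw [scaled_log, (exp_re_im _ _).1, (exp_re_im _ _).2]
    constructor
    · apply mul_pos (Real.exp_pos _)
      apply Real.cos_pos_of_mem_Ioo
      constructor
      · linarith [ha.1, Real.pi_pos]
      · linarith [ha.2]
    · apply mul_pos (Real.exp_pos _)
      apply Real.sin_pos_of_mem_Ioo
      constructor
      · linarith [ha.1]
      · linarith [ha.2, ha.1]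
  have hne : ∀ s : ℂ, 0 < s.re → 1 + s ≠ 0 := by
    intro s hs h
    have := congrArg Complex.re h
    simp at this
    linarith
  have key := hd.map (fun u => (1 - exp (((1 / 2 : ℝ) : ℂ) * Complex.log u)) /
    (1 + exp (((1 / 2 : ℝ) : ℂ) * Complex.log u))) ?_ ?_
  · have hq : ∀ z : ℂ, ‖z‖ < 1 → z.im < 0 → 0 < ((1 - z) / (1 + z)).re ∧
        0 < ((1 - z) / (1 + z)).im := by
      intro z hz hi
      have hp : 0 < ‖1 + z‖ := norm_pos_iff.mpr (one_add_ne hz)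
      rw [(cay_re_im z).1, (cay_re_im z).2]
      constructor
      · apply div_pos _ (by positivity)
        nlinarith [norm_nonneg z]
      · apply div_pos _ (by positivity)
        linarith
    have him : ∀ s : ℂ, 0 < s.re → 0 < s.im → 0 < (s ^ 2).im := by
      intro s h1 h2
      rw [pow_two, Complex.mul_im]
      have := mul_pos h1 h2
      nlinarith
    have hval : ∀ z : ℂ, ‖z‖ < 1 → z.im < 0 →
        (1 - exp (((1 / 2 : ℝ) : ℂ) * Complex.log (((1 - z) / (1 + z)) ^ 2))) /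
        (1 + exp (((1 / 2 : ℝ) : ℂ) * Complex.log (((1 - z) / (1 + z)) ^ 2))) = z := by
      intro z hz hi
      obtain ⟨h1, h2⟩ := hq z hz hi
      have h0 : (1 - z) / (1 + z) ≠ 0 := by
        intro h
        rw [h] at h1
        simp at h1
      have harg : ((1 - z) / (1 + z)).arg ∈ Ioo (-(Real.pi / 2)) (Real.pi / 2) := by
        constructor
        · have := (arg_mem h2).1
          linarith [Real.pi_pos]
        · exact Complex.arg_lt_pi_div_two_iff.mpr (Or.inl h1)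
      have hlog : Complex.log (((1 - z) / (1 + z)) ^ 2) = 2 * Complex.log ((1 - z) / (1 + z)) := by
        rw [pow_two, (Complex.log_mul_eq_add_log_iff h0 h0).mpr
          ⟨by linarith [harg.1], by linarith [harg.2]⟩]
        ring
      rw [hlog, show ((1 / 2 : ℝ) : ℂ) * (2 * Complex.log ((1 - z) / (1 + z))) =
        Complex.log ((1 - z) / (1 + z)) by push_cast; ring, Complex.exp_log h0]
      have hz1 := one_add_ne hz
      have h3 : (1 : ℂ) + (1 - z) / (1 + z) ≠ 0 := hne _ h1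
      rw [div_eq_iff h3]
      field_simp
      ring
    have k := key (((1 - z₁) / (1 + z₁)) ^ 2) (((1 - z₂) / (1 + z₂)) ^ 2)
      (him _ (hq z₁ h₁ hi₁).1 (hq z₁ h₁ hi₁).2) (him _ (hq z₂ h₂ hi₂).1 (hq z₂ h₂ hi₂).2)
    beta_reduce at k
    rw [hval z₁ h₁ hi₁, hval z₂ h₂ hi₂] at k
    exact k
  · have hd1 := diff_powmap (1 / 2)
    have c1 : DifferentiableOn ℂ (fun _ : ℂ => (1 : ℂ)) {z | 0 < z.im} :=
      differentiableOn_const _
    apply (c1.sub hd1).div (c1.add hd1)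
    intro u hu
    exact hne _ (hs u hu).1
  · intro u hu
    obtain ⟨h1, h2⟩ := hs u hu
    show (1 - exp (((1 / 2 : ℝ) : ℂ) * Complex.log u)) /
      (1 + exp (((1 / 2 : ℝ) : ℂ) * Complex.log u)) ∈ D0
    set s := exp (((1 / 2 : ℝ) : ℂ) * Complex.log u) with hsdef
    have hp : 0 < ‖1 + s‖ := norm_pos_iff.mpr (hne s h1)
    apply mem_D0_of_im
    · rw [norm_div, div_lt_one hp]
      rw [← sq_lt_sq₀ (norm_nonneg _) (norm_nonneg _), ← Complex.normSq_eq_norm_sq,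
        ← Complex.normSq_eq_norm_sq, Complex.normSq_apply, Complex.normSq_apply]
      simp
      nlinarith
    · rw [(cay_re_im s).2]
      apply div_neg_of_neg_of_pos
      · linarith
      · positivity

end Pool.Agent.H99D
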