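import Pool.Agent.H99D.Edges

/-!
# Second estimate

`estq`: `edgeOut` with `y₁ = δ`, `y₂ = √2`, `ψ₁ = ψ₂ = π/5` (`AA / 2 = π/5`, `sin (π/2) = 1`):
`δ⁵ 2^{5/2} / (δ⁵ + 2^{5/2})² ≥ c δ⁵`.

`est2` (`2 ≤ ‖MM z‖`, so `Im z ≤ -c` by `im_le_of_two_le`; the same for
`q = MM (2 e^{iπ/5})`, because `MM q = 2 e^{iπ/5}`): `edgeE`, bound `c ε`, `ε = δ¹²`:
`Im ((1-z)/(1+z))² = 2 (1 - ‖z‖²) (-2 Im z) / ‖1 + z‖⁴ ≥ c ε` and `‖(1-z)/(1+z)‖² ≤ 4 / c²`.
-/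

set_option autoImplicit false

open Complex ComplexConjugate Metric Set

namespace Pool.Agent.H99D

theorem estq : ∃ c : ℝ, 0 < c ∧ ∀ δ : ℝ, 0 < δ → δ ≤ 1 / 2 → ∀ dd : ℂ → ℂ → ℝ, HDist D0 dd →
    c * δ ^ 5 ≤ Real.exp (-dd (pp δ) (MM (2 * exp ((AA / 2 : ℝ) * I)))) := by
  have h2 : 0 < Real.sqrt 2 := Real.sqrt_pos.mpr (by norm_num)
  refine ⟨Real.sqrt 2 ^ 5 / (1 + Real.sqrt 2 ^ 5) ^ 2, by positivity, ?_⟩
  intro δ hδ hδ1 dd hd
  have hm : AA / 2 ∈ Ioo 0 AA := ⟨by linarith [AA_pos], by linarith [AA_pos]⟩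
  have k := edgeOut hd hδ h2 hm hm
  have hs : Real.sin (5 / 2 * (AA / 2)) = 1 := by
    rw [show 5 / 2 * (AA / 2) = Real.pi / 2 by rw [AA]; ring, Real.sin_pi_div_two]
  rw [hs, mul_one, mul_one] at k
  have hsq : ((Real.sqrt 2 : ℝ) : ℂ) ^ 2 = 2 := by
    rw [← Complex.ofReal_pow, Real.sq_sqrt (by norm_num)]
    norm_num
  rw [hsq] at k
  refine le_trans ?_ k
  have hδ5 : δ ^ 5 ≤ 1 := pow_le_one₀ hδ.le (by linarith)
  rw [div_mul_eq_mul_div, mul_comm (Real.sqrt 2 ^ 5) (δ ^ 5)]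
  apply div_le_div_of_nonneg_left (by positivity) (by positivity)
  apply pow_le_pow_left₀ (by positivity)
  linarith

/-- Lower bound of the imaginary part of `((1 - z) / (1 + z)) ^ 2` and upper bound of its norm. -/
theorem cay_bounds {z : ℂ} {c : ℝ} (hc : 0 < c) (hz : ‖z‖ < 1) (h : z.im ≤ -c) :
    (1 - ‖z‖) * c / 4 ≤ (((1 - z) / (1 + z)) ^ 2).im ∧
      ‖((1 - z) / (1 + z)) ^ 2‖ ≤ 4 / c ^ 2 := by
  have hp : 0 < ‖1 + z‖ := norm_pos_iff.mpr (one_add_ne hz)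
  have h2 : ‖1 + z‖ ≤ 2 := by
    calc ‖1 + z‖ ≤ ‖(1 : ℂ)‖ + ‖z‖ := norm_add_le _ _
      _ ≤ 2 := by rw [norm_one]; linarith
  have h3 : ‖1 - z‖ ≤ 2 := by
    calc ‖1 - z‖ ≤ ‖(1 : ℂ)‖ + ‖z‖ := norm_sub_le _ _
      _ ≤ 2 := by rw [norm_one]; linarith
  have h4 : c ≤ ‖1 + z‖ := by
    have := Complex.abs_im_le_norm (1 + z)
    have h5 : (1 + z).im = z.im := by simp
    rw [h5, abs_of_neg (by linarith)] at this
    linarith
  constructor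
  · have hre := (cay_re_im z).1
    have him := (cay_re_im z).2
    have e : (((1 - z) / (1 + z)) ^ 2).im =
        2 * (((1 - z) / (1 + z)).re * ((1 - z) / (1 + z)).im) := by
      rw [pow_two, Complex.mul_im]
      ring
    rw [e, hre, him]
    have h6 : ‖1 + z‖ ^ 2 ≤ 4 := by nlinarith
    have a1 : (1 - ‖z‖) / 4 ≤ (1 - ‖z‖ ^ 2) / ‖1 + z‖ ^ 2 := by
      apply div_le_div₀
      · nlinarith [norm_nonneg z]
      · nlinarith [norm_nonneg z]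
      · positivity
      · exact h6
    have a2 : 2 * c / 4 ≤ -2 * z.im / ‖1 + z‖ ^ 2 := by
      apply div_le_div₀
      · linarith
      · linarith
      · positivity
      · exact h6
    have a3 : (1 - ‖z‖) / 4 * (2 * c / 4) ≤
        (1 - ‖z‖ ^ 2) / ‖1 + z‖ ^ 2 * (-2 * z.im / ‖1 + z‖ ^ 2) := by
      apply mul_le_mul a1 a2 (by positivity)
      apply le_trans _ a1
      linarith
    have a4 : (1 - ‖z‖) * c / 4 = 2 * ((1 - ‖z‖) / 4 * (2 * c / 4)) := by ring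
    rw [a4]
    linarith
  · rw [norm_pow, norm_div, div_pow]
    apply div_le_div₀
    · norm_num
    · nlinarith [norm_nonneg (1 - z)]
    · positivity
    · exact pow_le_pow_left₀ hc.le h4 2

theorem est2 : ∃ c : ℝ, 0 < c ∧ ∀ δ : ℝ, 0 < δ → δ ≤ 1 / 2 → ∀ dd : ℂ → ℂ → ℝ, HDist D0 dd →
    ∀ z : ℂ, ‖z‖ = 1 - δ ^ 12 → 2 ≤ ‖MM z‖ →
      c * δ ^ 12 ≤ Real.exp (-dd (MM (2 * exp ((AA / 2 : ℝ) * I))) z) := by
  set w : ℂ := 2 * exp ((AA / 2 : ℝ) * I) with hw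
  have hwim : 0 < w.im := by
    rw [hw, show (2 : ℂ) = ((2 : ℝ) : ℂ) by norm_num, im_polar]
    apply mul_pos two_pos
    apply Real.sin_pos_of_mem_Ioo
    constructor
    · linarith [AA_pos]
    · linarith [AA_pos, AA_lt, Real.pi_pos]
  have hwn : ‖w‖ = 2 := by
    rw [hw, show (2 : ℂ) = ((2 : ℝ) : ℂ) by norm_num, norm_polar two_pos.le]
  have hwc : w ≠ conj PP := by
    intro h
    rw [h, conj_PP, Complex.exp_ofReal_mul_I_im, Real.sin_neg] at hwim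
    have := sa_pos
    rw [sa] at this
    linarith
  have hq1 : ‖MM w‖ < 1 := MM_norm_lt hwim
  have hqM : MM (MM w) = w := MM_MM hwc
  set c₀ : ℝ := 3 * (1 - ka) / (10 * sa) with hc₀
  have hc0 : 0 < c₀ := by
    have := ka_lt
    have := sa_pos
    rw [hc₀]
    apply div_pos
    · linarith
    · linarith
  have hqi : (MM w).im ≤ -c₀ := im_le_of_two_le hq1 (by rw [hqM, hwn])
  obtain ⟨b1, b2⟩ := cay_bounds hc0 hq1 hqi
  have hN : 0 < (1 - ‖MM w‖) * c₀ / 4 := by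
    have : 0 < 1 - ‖MM w‖ := by linarith
    positivity
  refine ⟨((1 - ‖MM w‖) * c₀ / 4) * (c₀ / 4) / (4 / c₀ ^ 2 + 4 / c₀ ^ 2) ^ 2, by positivity, ?_⟩
  intro δ hδ hδ1 dd hd z hz hM
  have hδ12 : 0 < δ ^ 12 := by positivity
  have hz1 : ‖z‖ < 1 := by rw [hz]; linarith
  have hzi : z.im ≤ -c₀ := im_le_of_two_le hz1 hM
  obtain ⟨d1, d2⟩ := cay_bounds hc0 hz1 hzi
  have k := edgeE hd hq1 hz1 (by linarith) (by linarith)
  refine le_trans ?_ k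
  rw [div_mul_eq_mul_div]
  have hnum : (1 - ‖MM w‖) * c₀ / 4 * (c₀ / 4) * δ ^ 12 ≤
      (((1 - MM w) / (1 + MM w)) ^ 2).im * (((1 - z) / (1 + z)) ^ 2).im := by
    have e : (1 - ‖z‖) * c₀ / 4 = c₀ / 4 * δ ^ 12 := by rw [hz]; ring
    rw [mul_assoc]
    apply mul_le_mul b1 _ (by positivity) (hN.le.trans b1)
    rw [← e]
    exact d1
  have hpos : 0 < (((1 - z) / (1 + z)) ^ 2).im := by
    apply lt_of_lt_of_le _ d1
    have : 0 < 1 - ‖z‖ := by linarith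
    positivity
  have hposn : 0 < ‖((1 - z) / (1 + z)) ^ 2‖ := by
    apply lt_of_lt_of_le (abs_pos.mpr hpos.ne') (Complex.abs_im_le_norm _)
  apply div_le_div₀
  · exact le_trans (by positivity) hnum
  · exact hnum
  · have := norm_nonneg (((1 - MM w) / (1 + MM w)) ^ 2)
    positivity
  · apply pow_le_pow_left₀
    · positivity
    · exact add_le_add b2 d2

end Pool.Agent.H99D
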