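import Pool.Agent.H99D.Const

/-!
# Common preparation for the estimates `est1` and `est3`
-/

set_option autoImplicit false

open Complex ComplexConjugate Metric Set

namespace Pool.Agent.H99D

theorem conjPP_eq : conj PP = exp (-(AA * I)) := by
  unfold PP
  rw [← exp_conj]
  simp

theorem est_setup {δ : ℝ} (hδ : 0 < δ) (hδ1 : δ ≤ 1 / 2) {z : ℂ} (hz : ‖z‖ = 1 - δ ^ 12) :
    ∃ ρ ψ : ℝ, 0 < ρ ∧ 0 < ψ ∧ ψ < Real.pi ∧ ρ = ‖MM z‖ ∧ z = MM (ρ * exp (ψ * I)) ∧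
      δ ^ 12 * sa / 4 ≤ ρ * Real.sin ψ ∧
      (z.re + δ ^ 12 ≤ ka * ‖z‖ ^ 2 → δ ^ 12 * sa / 2 ≤ ρ * Real.sin (AA - ψ)) ∧
      (ka * ‖z‖ ^ 2 + δ ^ 12 ≤ z.re → δ ^ 12 * sa / 2 ≤ ρ * Real.sin (ψ - AA)) := by
  have hsa := sa_pos
  have hε : 0 < δ ^ 12 := by positivity
  have hε1 : δ ^ 12 ≤ 1 / 2 := by
    calc δ ^ 12 ≤ (1 / 2) ^ 12 := by gcongr
      _ ≤ 1 / 2 := by norm_num
  have hz1 : ‖z‖ < 1 := by linarith
  have hzne : z ≠ conj PP := by
    intro h
    have : ‖z‖ = 1 := by rw [h, RCLike.norm_conj, norm_PP]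
    linarith
  set w := MM z with hw
  have hwi : 0 < w.im := MM_im_pos hz1
  have hMw : MM w = z := MM_MM hzne
  have h1 := one_sub_norm hwi.le
  have h2 := re_sub hwi.le
  have h3 := sa_le hwi.le
  rw [hMw] at h1 h2
  set d := ‖w - conj PP‖ with hd
  have hdpos : 0 < d := lt_of_lt_of_le hsa h3
  have hd2 : sa ^ 2 ≤ d ^ 2 := by
    apply pow_le_pow_left₀ hsa.le h3
  have hd2pos : 0 < d ^ 2 := by positivity
  have hw0 : w ≠ 0 := by
    intro h
    rw [h] at hwi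
    simp at hwi
  have hρ : 0 < ‖w‖ := norm_pos_iff.mpr hw0
  have hpolar : (‖w‖ : ℂ) * exp (w.arg * I) = w := norm_mul_exp_arg_mul_I w
  have him : w.im = ‖w‖ * Real.sin w.arg := (norm_mul_sin_arg w).symm
  have hargpos : 0 < w.arg := by
    rcases lt_or_ge 0 w.arg with h | h
    · exact h
    · exfalso
      have : Real.sin w.arg ≤ 0 :=
        Real.sin_nonpos_of_nonpos_of_neg_pi_le h (neg_pi_lt_arg w).le
      have : w.im ≤ 0 := by
        rw [him]
        exact mul_nonpos_of_nonneg_of_nonpos hρ.le this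
      linarith
  have hargpi : w.arg < Real.pi := by
    rcases lt_or_eq_of_le (arg_le_pi w) with h | h
    · exact h
    · exfalso
      rw [him, h, Real.sin_pi] at hwi
      simp at hwi
  have hconj : (w * conj PP).im = ‖w‖ * Real.sin (w.arg - AA) := by
    have : w * conj PP = (‖w‖ : ℂ) * exp ((w.arg - AA : ℝ) * I) := by
      rw [conjPP_eq]
      conv_lhs => rw [← hpolar]
      rw [mul_assoc, ← exp_add]
      congr 2
      push_cast
      ring
    rw [this, im_ofReal_mul, exp_ofReal_mul_I_im]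
  have h1z : δ ^ 12 ≤ 1 - ‖z‖ ^ 2 := by
    rw [hz]
    nlinarith
  refine ⟨‖w‖, w.arg, hρ, hargpos, hargpi, rfl, ?_, ?_, ?_, ?_⟩
  · rw [hpolar, hMw]
  · rw [← him]
    have e1 : 4 * sa * w.im = (1 - ‖z‖ ^ 2) * d ^ 2 := by
      rw [h1]
      field_simp
    have e2 : δ ^ 12 * sa ^ 2 ≤ (1 - ‖z‖ ^ 2) * d ^ 2 :=
      mul_le_mul h1z hd2 (by positivity) (by linarith)
    have e3 : sa * (δ ^ 12 * sa / 4) ≤ sa * w.im := by nlinarith
    exact le_of_mul_le_mul_left e3 hsa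
  · intro h
    have e0 : Real.sin (AA - w.arg) = - Real.sin (w.arg - AA) := by
      rw [← Real.sin_neg]
      congr 1
      ring
    rw [e0]
    have e1 : 2 * sa * (w * conj PP).im = (z.re - ka * ‖z‖ ^ 2) * d ^ 2 := by
      rw [h2]
      field_simp
    rw [hconj] at e1
    have e2 : δ ^ 12 * sa ^ 2 ≤ (ka * ‖z‖ ^ 2 - z.re) * d ^ 2 :=
      mul_le_mul (by linarith) hd2 (by positivity) (by linarith)
    have e3 : sa * (δ ^ 12 * sa / 2) ≤ sa * (‖w‖ * -Real.sin (w.arg - AA)) := by nlinarith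
    exact le_of_mul_le_mul_left e3 hsa
  · intro h
    have e1 : 2 * sa * (w * conj PP).im = (z.re - ka * ‖z‖ ^ 2) * d ^ 2 := by
      rw [h2]
      field_simp
    rw [hconj] at e1
    have e2 : δ ^ 12 * sa ^ 2 ≤ (z.re - ka * ‖z‖ ^ 2) * d ^ 2 :=
      mul_le_mul (by linarith) hd2 (by positivity) (by linarith)
    have e3 : sa * (δ ^ 12 * sa / 2) ≤ sa * (‖w‖ * Real.sin (w.arg - AA)) := by nlinarith
    exact le_of_mul_le_mul_left e3 hsa

end Pool.Agent.H99D
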