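import Pool.Agent.H99D.Defs

/-!
# Two trigonometric inequalities

`sin x ≥ (2/π) min (x, π - x)` on `[0, π]` (`Real.mul_le_sin`) and `sin t ≤ t`.
-/

set_option autoImplicit false

namespace Pool.Agent.H99D

theorem trig1 {ψ : ℝ} (h0 : 0 ≤ ψ) (h1 : ψ ≤ AA) :
    min (Real.sin ψ) (Real.sin (AA - ψ)) ≤ Real.sin (5 / 2 * ψ) := by
  have hpi := Real.pi_pos
  have hpi4 := Real.pi_lt_d2
  have key : ∀ x : ℝ, 0 ≤ x → x ≤ Real.pi / 5 → Real.sin x ≤ Real.sin (5 / 2 * x) := by
    intro x hx hx1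
    have h2 := Real.mul_le_sin (x := 5 / 2 * x) (by positivity) (by linarith)
    have h3 := Real.sin_le hx
    have h4 : x ≤ 2 / Real.pi * (5 / 2 * x) := by
      rw [div_mul_eq_mul_div, le_div_iff₀ hpi]
      nlinarith
    linarith
  unfold AA at h1 ⊢
  rcases le_total ψ (Real.pi / 5) with h | h
  · exact le_trans (min_le_left _ _) (key ψ h0 h)
  · refine le_trans (min_le_right _ _) ?_
    have h5 := key (2 * Real.pi / 5 - ψ) (by linarith) (by linarith)
    have h6 : Real.sin (5 / 2 * (2 * Real.pi / 5 - ψ)) = Real.sin (5 / 2 * ψ) := by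
      rw [← Real.sin_pi_sub]
      congr 1
      ring
    rwa [h6] at h5

theorem trig2 {φ : ℝ} (h0 : 0 ≤ φ) (h1 : φ ≤ 3 * Real.pi / 5) :
    min (Real.sin φ) (Real.sin (3 * Real.pi / 5 - φ)) ≤ Real.sin (5 / 3 * φ) := by
  have hpi := Real.pi_pos
  have hpi4 := Real.pi_lt_d2
  have key : ∀ x : ℝ, 0 ≤ x → x ≤ 3 * Real.pi / 10 → Real.sin x ≤ Real.sin (5 / 3 * x) := by
    intro x hx hx1
    have h2 := Real.mul_le_sin (x := 5 / 3 * x) (by positivity) (by linarith)
    have h3 := Real.sin_le hx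
    have h4 : x ≤ 2 / Real.pi * (5 / 3 * x) := by
      rw [div_mul_eq_mul_div, le_div_iff₀ hpi]
      nlinarith
    linarith
  rcases le_total φ (3 * Real.pi / 10) with h | h
  · exact le_trans (min_le_left _ _) (key φ h0 h)
  · refine le_trans (min_le_right _ _) ?_
    have h5 := key (3 * Real.pi / 5 - φ) (by linarith) (by linarith)
    have h6 : Real.sin (5 / 3 * (3 * Real.pi / 5 - φ)) = Real.sin (5 / 3 * φ) := by
      rw [← Real.sin_pi_sub]
      congr 1
      ring
    rwa [h6] at h5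

end Pool.Agent.H99D
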