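import Pool.Agent.H99D.Edges
import Pool.Agent.H99D.Trig
import Pool.Agent.H99D.EstAux

/-!
# Third estimate

Put `ε = δ¹²`, `w = MM z`.  By `one_sub_norm`, `sa_le` (and `MM_MM`, `MM_im_pos`):
`Im w ≥ (1 - ‖z‖²) sa / 4 ≥ ε sa / 4`, and by `re_sub`: `|Im (w conj PP)| ≥ ε sa / 2`.  Write
`w = ρ e^{iψ}`, `0 < ψ < π`; `Im w = ρ sin ψ`, `Im (w conj PP) = ρ sin (ψ - 2π/5)`.

`est3` (`Re z > ka ‖z‖²`, `ρ ≤ 2`): from `q = MM (2 e^{iπ/5})` to `q' = MM (2 e^{i(2π/5 + 3π/10)})` by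
`edgeE` (constants; `Im q, Im q' < 0` by `im_le_of_two_le`, as `MM q = 2 e^{iπ/5}` etc.), from `q'`
to `z` by `edgeIn` with `y₁ = 2^{1/3}`, `φ₁ = 3π/10` (`sin (5/3 φ₁) = 1`), `y₂ = ρ^{1/3}`,
`φ₂ = ψ - 2π/5`; `ρ sin (5/3 φ₂) ≥ ε sa / 4` by `trig2`, so the bound is
`c ε y₂² ≥ c ε^{5/3} = c δ²⁰`.
-/

set_option autoImplicit false

open Complex ComplexConjugate Metric Set

namespace Pool.Agent.H99D

private lemma est3_arith {δ t y S s : ℝ} (hδ : 0 < δ) (hδ1 : δ ≤ 1 / 2) (ht : 0 < t)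
    (ht3 : t ^ 3 = 2) (hy : 0 < y) (hS : 0 < S)
    (hS1 : S < 1) (hyt : y ≤ t) (hs : δ ^ 12 * S / 4 ≤ y ^ 3 * s)
    (hyl : δ ^ 12 * S / 4 ≤ y ^ 3) :
    S ^ 3 / 8192 * δ ^ 20 ≤ (t ^ 5 * 1) * (y ^ 5 * s) / (t ^ 5 + y ^ 5) ^ 2 := by
  have ht2 : t ≤ 2 := by
    by_contra hcon
    push Not at hcon
    have : (2 : ℝ) ^ 3 < t ^ 3 := pow_lt_pow_left₀ hcon (by norm_num) (by norm_num)
    rw [ht3] at this
    norm_num at this
  have hyl' : δ ^ 4 * S / 4 ≤ y := by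
    by_contra hcon
    push Not at hcon
    have h1 : y ^ 3 < (δ ^ 4 * S / 4) ^ 3 := by
      apply pow_lt_pow_left₀ hcon hy.le (by norm_num)
    have h2 : (δ ^ 4 * S / 4) ^ 3 ≤ δ ^ 12 * S / 4 := by
      have : (δ ^ 4 * S / 4) ^ 3 = δ ^ 12 * S ^ 3 / 64 := by ring
      rw [this]
      have : S ^ 3 ≤ S := by
        calc S ^ 3 ≤ S ^ 1 := pow_le_pow_of_le_one hS.le hS1.le (by norm_num)
          _ = S := pow_one S
      have h12 : (0 : ℝ) < δ ^ 12 := by positivity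
      nlinarith
    linarith
  have hpos : (0 : ℝ) < (t ^ 5 + y ^ 5) ^ 2 := by positivity
  rw [le_div_iff₀ hpos]
  have hrw : (t ^ 5 * 1) * (y ^ 5 * s) = t ^ 5 * y ^ 2 * (y ^ 3 * s) := by ring
  rw [hrw]
  have hlow : t ^ 5 * y ^ 2 * (δ ^ 12 * S / 4) ≤ t ^ 5 * y ^ 2 * (y ^ 3 * s) :=
    mul_le_mul_of_nonneg_left hs (by positivity)
  refine le_trans ?_ hlow
  have h5 : y ^ 5 ≤ t ^ 5 := pow_le_pow_left₀ hy.le hyt 5
  have h6 : (t ^ 5 + y ^ 5) ^ 2 ≤ 4 * t ^ 10 := by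
    calc (t ^ 5 + y ^ 5) ^ 2 ≤ (t ^ 5 + t ^ 5) ^ 2 := by gcongr
      _ = 4 * t ^ 10 := by ring
  have h7 : t ^ 5 ≤ 2 ^ 5 := pow_le_pow_left₀ ht.le ht2 5
  have h8 : (δ ^ 4 * S / 4) ^ 2 ≤ y ^ 2 := pow_le_pow_left₀ (by positivity) hyl' 2
  calc S ^ 3 / 8192 * δ ^ 20 * (t ^ 5 + y ^ 5) ^ 2
      ≤ S ^ 3 / 8192 * δ ^ 20 * (4 * t ^ 10) := by gcongr
    _ = S ^ 3 / 2048 * δ ^ 20 * t ^ 5 * t ^ 5 := by ring
    _ ≤ S ^ 3 / 2048 * δ ^ 20 * t ^ 5 * 2 ^ 5 := by gcongr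
    _ = t ^ 5 * (δ ^ 4 * S / 4) ^ 2 * (δ ^ 12 * S / 4) := by ring
    _ ≤ t ^ 5 * y ^ 2 * (δ ^ 12 * S / 4) := by gcongr

private lemma sq_im_pos {z : ℂ} (h : ‖z‖ < 1) (hi : z.im < 0) :
    0 < (((1 - z) / (1 + z)) ^ 2).im := by
  have hne : 1 + z ≠ 0 := by
    intro hcon
    have hz : z = -1 := by linear_combination hcon
    rw [hz] at h
    simp at h
  have hns : normSq z < 1 := by
    rw [normSq_eq_norm_sq]
    nlinarith [norm_nonneg z]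
  have hns1 : 0 < normSq (1 + z) := normSq_pos.mpr hne
  have hnsz : z.re * z.re + z.im * z.im < 1 := by
    rw [normSq_apply] at hns
    exact hns
  have hre : ((1 - z) / (1 + z)).re = (1 - (z.re * z.re + z.im * z.im)) / normSq (1 + z) := by
    rw [div_re]
    simp only [sub_re, one_re, add_re, sub_im, one_im, add_im, zero_add, zero_sub]
    field_simp
    ring
  have him : ((1 - z) / (1 + z)).im = (-2 * z.im) / normSq (1 + z) := by
    rw [div_im]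
    simp only [sub_re, one_re, add_re, sub_im, one_im, add_im, zero_add, zero_sub]
    field_simp
    ring
  have hre' : 0 < ((1 - z) / (1 + z)).re := by
    rw [hre]
    apply div_pos _ hns1
    linarith
  have him' : 0 < ((1 - z) / (1 + z)).im := by
    rw [him]
    apply div_pos _ hns1
    linarith
  rw [pow_two, mul_im]
  nlinarith

private lemma im_neg_of_eq {w : ℂ} (hw : 0 < w.im) (h : 2 ≤ ‖w‖) : (MM w).im < 0 := by
  have hne : w ≠ conj PP := by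
    intro hcon
    rw [hcon, PP_eq] at hw
    simp at hw
    linarith [sa_pos]
  have h1 := im_le_of_two_le (MM_norm_lt hw) (by rw [MM_MM hne]; exact h)
  have h2 : 0 < 3 * (1 - ka) / (10 * sa) := by
    have := sa_pos
    have := ka_lt
    apply div_pos <;> linarith
  linarith

theorem est3 : ∃ c : ℝ, 0 < c ∧ ∀ δ : ℝ, 0 < δ → δ ≤ 1 / 2 → ∀ dd : ℂ → ℂ → ℝ, HDist D0 dd →
    ∀ z : ℂ, ‖z‖ = 1 - δ ^ 12 → ka * ‖z‖ ^ 2 + δ ^ 12 ≤ z.re → ‖MM z‖ ≤ 2 →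
      c * δ ^ 20 ≤ Real.exp (-dd (MM (2 * exp ((AA / 2 : ℝ) * I))) z) := by
  have hsa := sa_pos
  have hsa1 := sa_lt
  have hAA := AA_pos
  have hAAlt := AA_lt
  have hpi := Real.pi_pos
  have hAAdef : AA = 2 * Real.pi / 5 := rfl
  -- the two intermediate points
  have hnorm : ∀ x : ℝ, ‖(2 * exp ((x : ℝ) * I) : ℂ)‖ = 2 := by
    intro x
    rw [norm_mul, norm_exp_ofReal_mul_I]
    simp
  have him : ∀ x : ℝ, (2 * exp ((x : ℝ) * I) : ℂ).im = 2 * Real.sin x := by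
    intro x
    have : (2 * exp ((x : ℝ) * I) : ℂ) = ((2 : ℝ) : ℂ) * exp ((x : ℝ) * I) := by push_cast; rfl
    rw [this, im_ofReal_mul, exp_ofReal_mul_I_im]
  set q : ℂ := MM (2 * exp ((AA / 2 : ℝ) * I)) with hq
  set q' : ℂ := MM (2 * exp ((AA + 3 * Real.pi / 10 : ℝ) * I)) with hq'
  have hw1 : 0 < (2 * exp ((AA / 2 : ℝ) * I) : ℂ).im := by
    rw [him]
    have : 0 < Real.sin (AA / 2) := Real.sin_pos_of_pos_of_lt_pi (by linarith) (by linarith)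
    linarith
  have hw2 : 0 < (2 * exp ((AA + 3 * Real.pi / 10 : ℝ) * I) : ℂ).im := by
    rw [him]
    have : 0 < Real.sin (AA + 3 * Real.pi / 10) :=
      Real.sin_pos_of_pos_of_lt_pi (by linarith) (by rw [hAAdef]; linarith)
    linarith
  have hqn : ‖q‖ < 1 := MM_norm_lt hw1
  have hq'n : ‖q'‖ < 1 := MM_norm_lt hw2
  have hqi : q.im < 0 := im_neg_of_eq hw1 (by rw [hnorm])
  have hq'i : q'.im < 0 := im_neg_of_eq hw2 (by rw [hnorm])
  set c₀ : ℝ := (((1 - q) / (1 + q)) ^ 2).im * (((1 - q') / (1 + q')) ^ 2).im /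
      (‖((1 - q) / (1 + q)) ^ 2‖ + ‖((1 - q') / (1 + q')) ^ 2‖) ^ 2 with hc₀
  have ha := sq_im_pos hqn hqi
  have hb := sq_im_pos hq'n hq'i
  have hc₀pos : 0 < c₀ := by
    apply div_pos (mul_pos ha hb)
    have : 0 < ‖((1 - q) / (1 + q)) ^ 2‖ := by
      rw [norm_pos_iff]
      intro h
      rw [h] at ha
      simp at ha
    positivity
  refine ⟨c₀ * (sa ^ 3 / 8192), by positivity, ?_⟩
  intro δ hδ hδ1 dd hd z hz hre hM
  obtain ⟨ρ, ψ, hρ, hψ0, hψpi, hρM, hzM, hs1, -, hs2⟩ := est_setup hδ hδ1 hz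
  have hs2 := hs2 hre
  have hε : 0 < δ ^ 12 := by positivity
  have hψA : AA < ψ := by
    by_contra hcon
    push Not at hcon
    have h1 : Real.sin (ψ - AA) ≤ 0 := by
      apply Real.sin_nonpos_of_nonpos_of_neg_pi_le
      · linarith
      · linarith
    have h2 : ρ * Real.sin (ψ - AA) ≤ 0 := mul_nonpos_of_nonneg_of_nonpos hρ.le h1
    have h3 : 0 < δ ^ 12 * sa / 2 := by positivity
    linarith
  -- cube roots
  obtain ⟨t, ht, ht3⟩ : ∃ t : ℝ, 0 < t ∧ t ^ 3 = 2 :=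
    ⟨(2 : ℝ) ^ ((1 : ℝ) / 3), by positivity, by
      rw [← Real.rpow_natCast, ← Real.rpow_mul (by norm_num)]
      norm_num⟩
  obtain ⟨y, hy0, hy3⟩ : ∃ y : ℝ, 0 < y ∧ y ^ 3 = ρ :=
    ⟨ρ ^ ((1 : ℝ) / 3), by positivity, by
      rw [← Real.rpow_natCast, ← Real.rpow_mul hρ.le]
      norm_num⟩
  have hyt : y ≤ t := by
    by_contra hcon
    push Not at hcon
    have : t ^ 3 < y ^ 3 := pow_lt_pow_left₀ hcon ht.le (by norm_num)
    rw [ht3, hy3, hρM] at this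
    linarith
  have hsin : δ ^ 12 * sa / 4 ≤ y ^ 3 * Real.sin (5 / 3 * (ψ - AA)) := by
    rw [hy3]
    have ht' := trig2 (φ := ψ - AA) (by linarith) (by rw [hAAdef]; linarith)
    have h1 : δ ^ 12 * sa / 4 ≤
        ρ * min (Real.sin (ψ - AA)) (Real.sin (3 * Real.pi / 5 - (ψ - AA))) := by
      rw [mul_min_of_nonneg _ _ hρ.le]
      apply le_min
      · have : 0 < δ ^ 12 * sa := by positivity
        linarith
      · have : 3 * Real.pi / 5 - (ψ - AA) = Real.pi - ψ := by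
          rw [hAAdef]
          ring
        rw [this, Real.sin_pi_sub]
        exact hs1
    exact h1.trans (mul_le_mul_of_nonneg_left ht' hρ.le)
  have hylow : δ ^ 12 * sa / 4 ≤ y ^ 3 := by
    rw [hy3]
    calc δ ^ 12 * sa / 4 ≤ ρ * Real.sin ψ := hs1
      _ ≤ ρ * 1 := mul_le_mul_of_nonneg_left (Real.sin_le_one _) hρ.le
      _ = ρ := mul_one ρ
  have key := edgeIn hd (y₁ := t) (y₂ := y) (φ₁ := 3 * Real.pi / 10) (φ₂ := ψ - AA) ht hy0
    ⟨by linarith, by linarith⟩ ⟨by linarith, by rw [hAAdef]; linarith⟩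
  have hone : Real.sin (5 / 3 * (3 * Real.pi / 10)) = 1 := by
    rw [← Real.sin_pi_div_two]
    congr 1
    ring
  rw [hone] at key
  have e1 : MM ((t : ℂ) ^ 3 * exp (((AA + 3 * Real.pi / 10 : ℝ) : ℂ) * I)) = q' := by
    have : ((t : ℂ)) ^ 3 = 2 := by
      rw [← ofReal_pow, ht3]
      simp
    rw [this]
  have e2 : MM ((y : ℂ) ^ 3 * exp (((AA + (ψ - AA) : ℝ) : ℂ) * I)) = z := by
    have h1 : ((y : ℂ)) ^ 3 = ((ρ : ℝ) : ℂ) := by
      rw [← hy3]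
      push_cast
      rfl
    have h2 : AA + (ψ - AA) = ψ := by ring
    rw [h1, h2]
    exact hzM.symm
  rw [e1, e2] at key
  have hB := (est3_arith hδ hδ1 ht ht3 hy0 hsa hsa1 hyt hsin hylow).trans key
  have hA : c₀ ≤ Real.exp (-dd q q') := edgeE hd hqn hq'n hqi hq'i
  calc c₀ * (sa ^ 3 / 8192) * δ ^ 20 = c₀ * (sa ^ 3 / 8192 * δ ^ 20) := by ring
    _ ≤ Real.exp (-dd q q') * Real.exp (-dd q' z) :=
        mul_le_mul hA hB (by positivity) (Real.exp_pos _).le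
    _ = Real.exp (-dd q q' + -dd q' z) := (Real.exp_add _ _).symm
    _ ≤ Real.exp (-dd q z) := by
        apply Real.exp_le_exp.mpr
        have := hd.tri q q' z
        linarith

end Pool.Agent.H99D
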