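import Pool.Agent.H99D.Est1
import Pool.Agent.H99D.Est2
import Pool.Agent.H99D.Est3

/-!
# The lower bound of the Green's function on the circle `‖z‖ = 1 - δ¹²`
-/

set_option autoImplicit false

open Complex ComplexConjugate Metric Set

namespace Pool.Agent.H99D

/-- The three estimates together. -/
theorem lower : ∃ c : ℝ, 0 < c ∧ ∀ δ : ℝ, 0 < δ → δ ≤ 1 / 2 → ∀ dd : ℂ → ℂ → ℝ, HDist D0 dd →
    ∀ z : ℂ, ‖z‖ = 1 - δ ^ 12 → δ ^ 12 ≤ |z.re - ka * ‖z‖ ^ 2| →
      c * δ ^ 25 ≤ Real.exp (-dd (pp δ) z) := by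
  obtain ⟨c₁, h₁, H₁⟩ := est1
  obtain ⟨cq, hq, Hq⟩ := estq
  obtain ⟨c₂, h₂, H₂⟩ := est2
  obtain ⟨c₃, h₃, H₃⟩ := est3
  refine ⟨min c₁ (min (cq * c₂) (cq * c₃)), by positivity, ?_⟩
  intro δ hδ hδ1 dd hd z hz hre
  have hδ' : δ ≤ 1 := by linarith
  -- composition with `q`
  have hcomp : ∀ A B : ℝ, 0 < B → A ≤ Real.exp (-dd (pp δ) (MM (2 * exp ((AA / 2 : ℝ) * I)))) →
      B ≤ Real.exp (-dd (MM (2 * exp ((AA / 2 : ℝ) * I))) z) →
      A * B ≤ Real.exp (-dd (pp δ) z) := by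
    intro A B hB hA' hB'
    calc A * B ≤ Real.exp (-dd (pp δ) (MM (2 * exp ((AA / 2 : ℝ) * I)))) *
          Real.exp (-dd (MM (2 * exp ((AA / 2 : ℝ) * I))) z) :=
          mul_le_mul hA' hB' hB.le (Real.exp_pos _).le
      _ = Real.exp (-dd (pp δ) (MM (2 * exp ((AA / 2 : ℝ) * I))) +
          -dd (MM (2 * exp ((AA / 2 : ℝ) * I))) z) := (Real.exp_add _ _).symm
      _ ≤ Real.exp (-dd (pp δ) z) := by
          apply Real.exp_le_exp.mpr
          have := hd.tri (pp δ) (MM (2 * exp ((AA / 2 : ℝ) * I))) z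
          linarith
  rcases le_or_gt 2 ‖MM z‖ with h | h
  · have := hcomp (cq * δ ^ 5) (c₂ * δ ^ 12) (by positivity) (Hq δ hδ hδ1 dd hd)
      (H₂ δ hδ hδ1 dd hd z hz h)
    refine le_trans ?_ this
    calc min c₁ (min (cq * c₂) (cq * c₃)) * δ ^ 25 ≤ (cq * c₂) * δ ^ 17 := by
          apply mul_le_mul ((min_le_right _ _).trans (min_le_left _ _)) _ (by positivity)
            (by positivity)
          exact pow_le_pow_of_le_one hδ.le hδ' (by norm_num)
      _ = cq * δ ^ 5 * (c₂ * δ ^ 12) := by ring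
  · rcases le_or_gt 0 (z.re - ka * ‖z‖ ^ 2) with h0 | h0
    · rw [abs_of_nonneg h0] at hre
      have := hcomp (cq * δ ^ 5) (c₃ * δ ^ 20) (by positivity) (Hq δ hδ hδ1 dd hd)
        (H₃ δ hδ hδ1 dd hd z hz (by linarith) h.le)
      refine le_trans ?_ this
      calc min c₁ (min (cq * c₂) (cq * c₃)) * δ ^ 25 ≤ (cq * c₃) * δ ^ 25 := by
            apply mul_le_mul_of_nonneg_right ((min_le_right _ _).trans (min_le_right _ _))
              (by positivity)
        _ = cq * δ ^ 5 * (c₃ * δ ^ 20) := by ring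
    · rw [abs_of_neg h0] at hre
      have := H₁ δ hδ hδ1 dd hd z hz (by linarith) h.le
      refine le_trans ?_ this
      exact mul_le_mul_of_nonneg_right (min_le_left _ _) (by positivity)

end Pool.Agent.H99D
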