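import Pool.Agent.H99D.Edges
import Pool.Agent.H99D.Trig
import Pool.Agent.H99D.EstAux

/-!
# First estimate

Put `ε = δ¹²`, `w = MM z`.  By `one_sub_norm`, `sa_le` (and `MM_MM`, `MM_im_pos`):
`Im w ≥ (1 - ‖z‖²) sa / 4 ≥ ε sa / 4`, and by `re_sub`: `|Im (w conj PP)| ≥ ε sa / 2`.  Write
`w = ρ e^{iψ}`, `0 < ψ < π`; `Im w = ρ sin ψ`, `Im (w conj PP) = ρ sin (ψ - 2π/5)`.

`est1` (`Re z < ka ‖z‖²`, i.e. `ψ < 2π/5`, `ρ ≤ 2`): `edgeOut` with `y₁ = δ`, `ψ₁ = π/5`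
(`sin (5/2 ψ₁) = 1`), `y₂ = √ρ`, `ψ₂ = ψ`; `ρ sin (5/2 ψ) ≥ ε sa / 4` by `trig1`.  So
`exp (-dd) ≥ δ⁵ y⁵ sin / (δ⁵ + y⁵)² ≥ (ε sa / 4) δ⁵ y³ / (δ⁵ + y⁵)²`.  If `y ≤ δ` this is
`≥ (ε sa / 4) y³ / (4 δ⁵)`, `y² ≥ ε sa / 4`; if `y ≥ δ` it is `≥ (ε sa / 4) δ⁵ / (4 y⁷)`, `y² ≤ 2`.
-/

set_option autoImplicit false

open Complex ComplexConjugate Metric Set

namespace Pool.Agent.H99D

private lemma est1_arith {δ y S s : ℝ} (hδ : 0 < δ) (hδ1 : δ ≤ 1 / 2) (hy : 0 < y) (hS : 0 < S)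
    (hS1 : S < 1) (hy2 : y ^ 2 ≤ 2) (hs : δ ^ 12 * S / 4 ≤ y ^ 2 * s)
    (hyl : δ ^ 12 * S / 4 ≤ y ^ 2) :
    S ^ 4 / 2048 * δ ^ 25 ≤ (δ ^ 5 * 1) * (y ^ 5 * s) / (δ ^ 5 + y ^ 5) ^ 2 := by
  have hyl' : δ ^ 6 * S / 2 ≤ y := by
    by_contra hcon
    push Not at hcon
    have h1 : y ^ 2 < (δ ^ 6 * S / 2) ^ 2 := by
      apply pow_lt_pow_left₀ hcon hy.le (by norm_num)
    have h2 : (δ ^ 6 * S / 2) ^ 2 ≤ δ ^ 12 * S / 4 := by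
      have : (δ ^ 6 * S / 2) ^ 2 = δ ^ 12 * (S * S) / 4 := by ring
      rw [this]
      have : S * S ≤ S := by nlinarith
      have h12 : (0 : ℝ) < δ ^ 12 := by positivity
      nlinarith
    linarith
  have hpos : (0 : ℝ) < (δ ^ 5 + y ^ 5) ^ 2 := by positivity
  rw [le_div_iff₀ hpos]
  have hrw : (δ ^ 5 * 1) * (y ^ 5 * s) = δ ^ 5 * y ^ 3 * (y ^ 2 * s) := by ring
  rw [hrw]
  have hlow : δ ^ 5 * y ^ 3 * (δ ^ 12 * S / 4) ≤ δ ^ 5 * y ^ 3 * (y ^ 2 * s) :=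
    mul_le_mul_of_nonneg_left hs (by positivity)
  refine le_trans ?_ hlow
  rcases le_total y δ with h | h
  · have h5 : y ^ 5 ≤ δ ^ 5 := pow_le_pow_left₀ hy.le h 5
    have h6 : (δ ^ 5 + y ^ 5) ^ 2 ≤ 4 * δ ^ 10 := by
      calc (δ ^ 5 + y ^ 5) ^ 2 ≤ (δ ^ 5 + δ ^ 5) ^ 2 := by gcongr
        _ = 4 * δ ^ 10 := by ring
    have h3 : (δ ^ 6 * S / 2) ^ 3 ≤ y ^ 3 := pow_le_pow_left₀ (by positivity) hyl' 3
    calc S ^ 4 / 2048 * δ ^ 25 * (δ ^ 5 + y ^ 5) ^ 2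
        ≤ S ^ 4 / 2048 * δ ^ 25 * (4 * δ ^ 10) := by gcongr
      _ ≤ δ ^ 5 * (δ ^ 6 * S / 2) ^ 3 * (δ ^ 12 * S / 4) := by
          have : δ ^ 5 * (δ ^ 6 * S / 2) ^ 3 * (δ ^ 12 * S / 4) = S ^ 4 * δ ^ 35 / 32 := by ring
          rw [this]
          have : S ^ 4 / 2048 * δ ^ 25 * (4 * δ ^ 10) = S ^ 4 * δ ^ 35 / 512 := by ring
          rw [this]
          have : 0 < S ^ 4 * δ ^ 35 := by positivity
          linarith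
      _ ≤ δ ^ 5 * y ^ 3 * (δ ^ 12 * S / 4) := by gcongr
  · have h5 : δ ^ 5 ≤ y ^ 5 := pow_le_pow_left₀ hδ.le h 5
    have h6 : (δ ^ 5 + y ^ 5) ^ 2 ≤ 4 * y ^ 10 := by
      calc (δ ^ 5 + y ^ 5) ^ 2 ≤ (y ^ 5 + y ^ 5) ^ 2 := by gcongr
        _ = 4 * y ^ 10 := by ring
    have h7 : y ^ 7 ≤ 2 ^ 7 := by
      apply pow_le_pow_left₀ hy.le
      nlinarith
    calc S ^ 4 / 2048 * δ ^ 25 * (δ ^ 5 + y ^ 5) ^ 2
        ≤ S ^ 4 / 2048 * δ ^ 25 * (4 * y ^ 10) := by gcongr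
      _ = S ^ 4 / 512 * δ ^ 25 * y ^ 3 * y ^ 7 := by ring
      _ ≤ S ^ 4 / 512 * δ ^ 25 * y ^ 3 * 2 ^ 7 := by gcongr
      _ = S ^ 4 * δ ^ 25 * (y ^ 3 / 4) := by ring
      _ ≤ S * δ ^ 17 * (y ^ 3 / 4) := by
          have h8 : S ^ 4 ≤ S := by
            calc S ^ 4 ≤ S ^ 1 := pow_le_pow_of_le_one hS.le hS1.le (by norm_num)
              _ = S := pow_one S
          have h9 : δ ^ 25 ≤ δ ^ 17 := pow_le_pow_of_le_one hδ.le (by linarith) (by norm_num)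
          gcongr
      _ = δ ^ 5 * y ^ 3 * (δ ^ 12 * S / 4) := by ring

theorem est1 : ∃ c : ℝ, 0 < c ∧ ∀ δ : ℝ, 0 < δ → δ ≤ 1 / 2 → ∀ dd : ℂ → ℂ → ℝ, HDist D0 dd →
    ∀ z : ℂ, ‖z‖ = 1 - δ ^ 12 → z.re + δ ^ 12 ≤ ka * ‖z‖ ^ 2 → ‖MM z‖ ≤ 2 →
      c * δ ^ 25 ≤ Real.exp (-dd (pp δ) z) := by
  have hsa := sa_pos
  have hsa1 := sa_lt
  refine ⟨sa ^ 4 / 2048, by positivity, ?_⟩
  intro δ hδ hδ1 dd hd z hz hre hM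
  obtain ⟨ρ, ψ, hρ, hψ0, hψpi, hρM, hzM, hs1, hs2, -⟩ := est_setup hδ hδ1 hz
  have hs2 := hs2 hre
  have hε : 0 < δ ^ 12 := by positivity
  have hAA := AA_pos
  have hAAlt := AA_lt
  have hψA : ψ < AA := by
    by_contra hcon
    push Not at hcon
    have h1 : Real.sin (AA - ψ) ≤ 0 := by
      apply Real.sin_nonpos_of_nonpos_of_neg_pi_le
      · linarith
      · linarith
    have h2 : ρ * Real.sin (AA - ψ) ≤ 0 := mul_nonpos_of_nonneg_of_nonpos hρ.le h1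
    have h3 : 0 < δ ^ 12 * sa / 2 := by positivity
    linarith
  set y := Real.sqrt ρ with hy
  have hy0 : 0 < y := Real.sqrt_pos.mpr hρ
  have hy2 : y ^ 2 = ρ := Real.sq_sqrt hρ.le
  have hsin : δ ^ 12 * sa / 4 ≤ y ^ 2 * Real.sin (5 / 2 * ψ) := by
    rw [hy2]
    have ht := trig1 hψ0.le hψA.le
    have h1 : δ ^ 12 * sa / 4 ≤ ρ * min (Real.sin ψ) (Real.sin (AA - ψ)) := by
      rw [mul_min_of_nonneg _ _ hρ.le]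
      apply le_min hs1
      have : 0 < δ ^ 12 * sa := by positivity
      linarith
    exact h1.trans (mul_le_mul_of_nonneg_left ht hρ.le)
  have hylow : δ ^ 12 * sa / 4 ≤ y ^ 2 := by
    rw [hy2]
    calc δ ^ 12 * sa / 4 ≤ ρ * Real.sin ψ := hs1
      _ ≤ ρ * 1 := mul_le_mul_of_nonneg_left (Real.sin_le_one _) hρ.le
      _ = ρ := mul_one ρ
  have hyup : y ^ 2 ≤ 2 := by
    rw [hy2, hρM]
    exact hM
  have key := edgeOut hd (y₁ := δ) (y₂ := y) (ψ₁ := AA / 2) (ψ₂ := ψ) hδ hy0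
    ⟨by linarith, by linarith⟩ ⟨hψ0, hψA⟩
  have hone : Real.sin (5 / 2 * (AA / 2)) = 1 := by
    rw [← Real.sin_pi_div_two]
    congr 1
    unfold AA
    ring
  rw [hone] at key
  have e1 : MM ((δ : ℂ) ^ 2 * exp (((AA / 2 : ℝ) : ℂ) * I)) = pp δ := rfl
  have e2 : MM ((y : ℂ) ^ 2 * exp ((ψ : ℂ) * I)) = z := by
    have : ((y : ℂ)) ^ 2 = ((ρ : ℝ) : ℂ) := by
      rw [← hy2]
      push_cast
      rfl
    rw [this]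
    exact hzM.symm
  rw [e1, e2] at key
  exact (est1_arith hδ hδ1 hy0 hsa hsa1 hyup hsin hylow).trans key

end Pool.Agent.H99D
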