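import Pool.Agent.H99D.Const

/-!
# The exceptional angles

`cos x - cos x₀ = -2 sin ((x - x₀)/2) sin ((x + x₀)/2)`, `x₀ = arccos (ka r) ∈ [2π/5, π/2]`.  The
two sines cannot be both small in absolute value, so if the product is `< η / 2` then `x` is within
`C η` of `x₀` or `-x₀` modulo `2π`; `θ + τ` with `θ ∈ (-π, π]` meets at most a bounded number of the
arcs `|x ∓ x₀ - 2πk| < C η`.
-/

set_option autoImplicit false

open MeasureTheory Set

namespace Pool.Agent.H99D

/-- lower bound for the difference of cosines on `[0, π]` with one point in `[π/3, π/2]`. -/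
theorem excl_aux {t x₀ : ℝ} (ht0 : 0 ≤ t) (htp : t ≤ Real.pi) (hx0 : Real.pi / 3 ≤ x₀)
    (hx1 : x₀ ≤ Real.pi / 2) : |t - x₀| ≤ Real.pi * |Real.cos t - Real.cos x₀| := by
  have hpi := Real.pi_pos
  rw [Real.cos_sub_cos]
  have h1 : (1 : ℝ) / 2 ≤ Real.sin ((t + x₀) / 2) := by
    rcases le_total ((t + x₀) / 2) (Real.pi / 2) with h | h
    · have : Real.sin (Real.pi / 6) ≤ Real.sin ((t + x₀) / 2) :=
        Real.sin_le_sin_of_le_of_le_pi_div_two (by linarith) h (by linarith)
      rwa [Real.sin_pi_div_six] at this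
    · rw [← Real.sin_pi_sub]
      have : Real.sin (Real.pi / 6) ≤ Real.sin (Real.pi - (t + x₀) / 2) :=
        Real.sin_le_sin_of_le_of_le_pi_div_two (by linarith) (by linarith) (by linarith)
      rwa [Real.sin_pi_div_six] at this
  have h2 : |t - x₀| / Real.pi ≤ |Real.sin ((t - x₀) / 2)| := by
    have habs : |t - x₀| ≤ Real.pi := by
      rw [abs_le]; constructor <;> linarith
    have h3 : |Real.sin ((t - x₀) / 2)| = Real.sin (|t - x₀| / 2) := by
      rcases abs_cases (t - x₀) with ⟨he, _⟩ | ⟨he, _⟩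
      · rw [he, abs_of_nonneg]
        apply Real.sin_nonneg_of_nonneg_of_le_pi
        · linarith [abs_nonneg (t - x₀)]
        · linarith
      · rw [he, neg_div, Real.sin_neg, abs_of_nonpos]
        have : 0 ≤ Real.sin (-((t - x₀) / 2)) := by
          apply Real.sin_nonneg_of_nonneg_of_le_pi
          · linarith
          · linarith
        rw [Real.sin_neg] at this
        linarith
    rw [h3]
    have h4 := Real.mul_le_sin (x := |t - x₀| / 2) (by positivity) (by linarith)
    calc |t - x₀| / Real.pi = 2 / Real.pi * (|t - x₀| / 2) := by ring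
      _ ≤ _ := h4
  have h5 : |-2 * Real.sin ((t + x₀) / 2) * Real.sin ((t - x₀) / 2)|
      = 2 * Real.sin ((t + x₀) / 2) * |Real.sin ((t - x₀) / 2)| := by
    rw [abs_mul, abs_mul, abs_of_nonneg (show (0 : ℝ) ≤ Real.sin ((t + x₀) / 2) by linarith)]
    norm_num
  rw [h5]
  have h6 : |t - x₀| / Real.pi ≤ 2 * Real.sin ((t + x₀) / 2) * |Real.sin ((t - x₀) / 2)| := by
    nlinarith [abs_nonneg (Real.sin ((t - x₀) / 2))]
  rw [div_le_iff₀ hpi] at h6
  linarith

theorem excl : ∃ C : ℝ, 0 < C ∧ ∀ τ r η : ℝ, 0 < r → r < 1 → 0 < η →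
    volume {θ : ℝ | -Real.pi < θ ∧ θ ≤ Real.pi ∧ |Real.cos (θ + τ) - ka * r| < η} ≤
      ENNReal.ofReal (C * η) := by
  have hpi := Real.pi_pos
  refine ⟨12 * Real.pi, by positivity, ?_⟩
  intro τ r η hr0 hr1 hη
  have hka0 : 0 < ka := by
    unfold ka AA
    apply Real.cos_pos_of_mem_Ioo
    constructor <;> linarith
  have hka1 : ka ≤ 1 / 2 := by
    unfold ka AA
    rw [← Real.cos_pi_div_three]
    apply Real.cos_le_cos_of_nonneg_of_le_pi <;> linarith
  set c := ka * r with hc
  have hc0 : 0 ≤ c := by positivity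
  have hc1 : c ≤ 1 / 2 := by nlinarith
  set x₀ := Real.arccos c with hx
  have hx1 : x₀ ≤ Real.pi / 2 := Real.arccos_le_pi_div_two.2 hc0
  have hcos : Real.cos x₀ = c := Real.cos_arccos (by linarith) (by linarith)
  have hx0 : Real.pi / 3 ≤ x₀ := by
    have : Real.arccos (1 / 2) ≤ x₀ := Real.arccos_le_arccos hc1
    rwa [← Real.cos_pi_div_three, Real.arccos_cos (by linarith) (by linarith)] at this
  set n : ℤ := round (τ / (2 * Real.pi)) with hn
  set τ' := τ - n * (2 * Real.pi) with hτ'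
  have hτ'b : |τ'| ≤ Real.pi := by
    have h := abs_sub_round (τ / (2 * Real.pi))
    have h2 : τ' = (τ / (2 * Real.pi) - n) * (2 * Real.pi) := by
      rw [hτ', sub_mul, div_mul_cancel₀ _ (by positivity)]
    rw [h2, abs_mul, abs_of_pos (show (0 : ℝ) < 2 * Real.pi by positivity)]
    nlinarith
  have hsub : {θ : ℝ | -Real.pi < θ ∧ θ ≤ Real.pi ∧ |Real.cos (θ + τ) - c| < η} ⊆
      (⋃ k ∈ Finset.Icc (-1 : ℤ) 1, Metric.ball (k * (2 * Real.pi) + x₀ - τ') (Real.pi * η)) ∪
      (⋃ k ∈ Finset.Icc (-1 : ℤ) 1, Metric.ball (k * (2 * Real.pi) - x₀ - τ') (Real.pi * η)) := by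
    rintro θ ⟨h1, h2, h3⟩
    have hcosθ : Real.cos (θ + τ) = Real.cos (θ + τ') := by
      have : θ + τ = θ + τ' + n * (2 * Real.pi) := by rw [hτ']; ring
      rw [this, Real.cos_add_int_mul_two_pi]
    rw [hcosθ] at h3
    set x := θ + τ' with hxdef
    have hxb : |x| ≤ 2 * Real.pi := by
      rw [abs_le] at hτ'b ⊢
      constructor <;> linarith
    set k : ℤ := round (x / (2 * Real.pi)) with hk
    have hkb : |x - k * (2 * Real.pi)| ≤ Real.pi := by
      have h := abs_sub_round (x / (2 * Real.pi))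
      have h2 : x - k * (2 * Real.pi) = (x / (2 * Real.pi) - k) * (2 * Real.pi) := by
        rw [sub_mul, div_mul_cancel₀ _ (by positivity)]
      rw [h2, abs_mul, abs_of_pos (show (0 : ℝ) < 2 * Real.pi by positivity)]
      nlinarith
    have hkmem : k ∈ Finset.Icc (-1 : ℤ) 1 := by
      rw [Finset.mem_Icc]
      rw [abs_le] at hkb hxb
      have h4 : (k : ℝ) < 2 := by nlinarith
      have h5 : (-2 : ℝ) < k := by nlinarith
      have h4' : k < 2 := by exact_mod_cast h4
      have h5' : -2 < k := by exact_mod_cast h5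
      constructor <;> omega
    have hcosx : Real.cos x = Real.cos |x - k * (2 * Real.pi)| := by
      rw [Real.cos_abs, Real.cos_sub_int_mul_two_pi]
    have hb := excl_aux (abs_nonneg (x - k * (2 * Real.pi))) hkb hx0 hx1
    rw [← hcosx, hcos] at hb
    have hb' : |(|x - k * (2 * Real.pi)| - x₀)| < Real.pi * η :=
      lt_of_le_of_lt hb (mul_lt_mul_of_pos_left h3 hpi)
    rcases abs_cases (x - k * (2 * Real.pi)) with ⟨he, _⟩ | ⟨he, _⟩
    · left
      rw [he] at hb'
      simp only [Set.mem_iUnion]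
      refine ⟨k, hkmem, ?_⟩
      rw [Metric.mem_ball, Real.dist_eq]
      have : θ - (k * (2 * Real.pi) + x₀ - τ') = x - k * (2 * Real.pi) - x₀ := by
        rw [hxdef]; ring
      rw [this]; exact hb'
    · right
      rw [he] at hb'
      simp only [Set.mem_iUnion]
      refine ⟨k, hkmem, ?_⟩
      rw [Metric.mem_ball, Real.dist_eq]
      have : θ - (k * (2 * Real.pi) - x₀ - τ') = -(-(x - k * (2 * Real.pi)) - x₀) := by
        rw [hxdef]; ring
      rw [this, abs_neg]; exact hb'
  refine (measure_mono hsub).trans ?_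
  refine (measure_union_le _ _).trans ?_
  have hcard : (Finset.Icc (-1 : ℤ) 1).card = 3 := by decide
  have hone : ∀ f : ℤ → ℝ, volume (⋃ k ∈ Finset.Icc (-1 : ℤ) 1, Metric.ball (f k) (Real.pi * η)) ≤
      ENNReal.ofReal (6 * Real.pi * η) := by
    intro f
    refine (measure_biUnion_finset_le _ _).trans ?_
    simp only [Real.volume_ball, Finset.sum_const, hcard]
    rw [nsmul_eq_mul, ← ENNReal.ofReal_natCast, ← ENNReal.ofReal_mul (by positivity)]
    apply ENNReal.ofReal_le_ofReal
    push_cast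
    linarith
  refine (add_le_add (hone (fun k => k * (2 * Real.pi) + x₀ - τ'))
    (hone (fun k => k * (2 * Real.pi) - x₀ - τ'))).trans ?_
  rw [← ENNReal.ofReal_add (by positivity) (by positivity)]
  apply ENNReal.ofReal_le_ofReal
  linarith

end Pool.Agent.H99D
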