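import Pool.Agent.H99S.Rmt
import Pool.Agent.H99S.GreenLevel

/-!
# Existence of the Green's function of a simply connected domain

`g z = - log ‖φ z‖` with `ψ, φ` from `H99S.riemann_sc` (`φ a = 0`).  Harmonic off `a`: `φ` is
holomorphic and vanishes only at `a` (`AnalyticAt.harmonicAt_log_norm` or
`H99S.harmonicAt_comp_analytic`).  Near `a`: `φ z = (z - a) k z`, `k = dslope φ a` analytic,
`k a = deriv φ a ≠ 0` because `ψ ∘ φ = id`; `h = - log ‖k‖`.  Boundary values: for `ε > 0`
take `K = ψ '' closedBall 0 (exp (-ε))`; on `D \ K` one has `exp (-ε) < ‖φ z‖ < 1`.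
-/

set_option autoImplicit false

open Complex ComplexConjugate Metric Set Filter Topology

namespace Pool.Agent.H99D

open Pool.Agent.H99.Circ

theorem exists_green {D : Set ℂ} (hD : IsOpen D) (hsc : IsSimplyConnected D) (hne : D ≠ univ)
    {a : ℂ} (ha : a ∈ D) : ∃ g : ℂ → ℝ, IsGreen D a g := by
  obtain ⟨ψ, φ, hψ, hφ, hψm, hφm, hφψ, hψφ, hψ0⟩ :=
    Pool.Agent.H99S.riemann_sc hD hsc hne ha
  have h0 : (0 : ℂ) ∈ ball (0 : ℂ) 1 := mem_ball_self one_pos
  have hφa : φ a = 0 := by rw [← hψ0, hφψ 0 h0]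
  have hφan : ∀ z ∈ D, AnalyticAt ℂ φ z := fun z hz => hφ.analyticAt (hD.mem_nhds hz)
  have hφne : ∀ z ∈ D, z ≠ a → φ z ≠ 0 := by
    intro z hz hza h
    apply hza
    rw [← hψφ z hz, h, hψ0]
  have hder : deriv φ a ≠ 0 := by
    intro hd0
    have h1 : HasDerivAt φ 0 a := by
      have := (hφan a ha).differentiableAt.hasDerivAt
      rwa [hd0] at this
    have h2 : HasDerivAt ψ (deriv ψ (φ a)) (φ a) := by
      rw [hφa]
      exact (hψ.differentiableAt (isOpen_ball.mem_nhds h0)).hasDerivAt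
    have h3 : HasDerivAt (fun w => ψ (φ w)) (deriv ψ (φ a) * 0) a := h2.comp a h1
    have h4 : (fun w => ψ (φ w)) =ᶠ[𝓝 a] fun w => w := by
      filter_upwards [hD.mem_nhds ha] with w hw
      exact hψφ w hw
    have h5 : HasDerivAt (fun w : ℂ => w) (deriv ψ (φ a) * 0) a :=
      h3.congr_of_eventuallyEq h4.symm
    have h6 := h5.unique (hasDerivAt_id a)
    simp at h6
  refine ⟨fun z => -Real.log ‖φ z‖, ?_, ?_, ?_⟩
  · rintro z ⟨hz, hza⟩
    have h1 : InnerProductSpace.HarmonicAt (fun w => Real.log ‖φ w‖) z :=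
      (hφan z hz).harmonicAt_log_norm (hφne z hz hza)
    exact h1.neg
  · have hkan : AnalyticAt ℂ (dslope φ a) a := by
      have : DifferentiableOn ℂ (dslope φ a) D :=
        (Complex.differentiableOn_dslope (hD.mem_nhds ha)).2 hφ
      exact this.analyticAt (hD.mem_nhds ha)
    have hk0 : dslope φ a a ≠ 0 := by rw [dslope_same]; exact hder
    have h1 : InnerProductSpace.HarmonicAt (fun w => Real.log ‖dslope φ a w‖) a :=
      hkan.harmonicAt_log_norm hk0
    refine ⟨fun z => -Real.log ‖dslope φ a z‖, h1.neg, ?_⟩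
    have hkne : ∀ᶠ z in 𝓝 a, dslope φ a z ≠ 0 := hkan.continuousAt.eventually_ne hk0
    filter_upwards [self_mem_nhdsWithin, nhdsWithin_le_nhds hkne] with z hz hkz
    have hza : z ≠ a := hz
    have hzs : z - a ≠ 0 := sub_ne_zero.2 hza
    have h2 : φ z = (z - a) * dslope φ a z := by
      rw [dslope_of_ne _ hza, slope_def_field, hφa, sub_zero]
      field_simp
    have h3 : Real.log ‖φ z‖ = Real.log ‖z - a‖ + Real.log ‖dslope φ a z‖ := by
      rw [h2, norm_mul, Real.log_mul (norm_ne_zero_iff.2 hzs) (norm_ne_zero_iff.2 hkz)]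
    rw [h3]
    ring
  · intro ε hε
    have hexp : Real.exp (-ε) < 1 := by rw [Real.exp_lt_one_iff]; linarith
    have hsub : closedBall (0 : ℂ) (Real.exp (-ε)) ⊆ ball 0 1 := closedBall_subset_ball hexp
    refine ⟨ψ '' closedBall 0 (Real.exp (-ε)), ?_, ?_, ?_⟩
    · exact (isCompact_closedBall _ _).image_of_continuousOn (hψ.continuousOn.mono hsub)
    · rintro _ ⟨w, hw, rfl⟩
      exact hψm (hsub hw)
    · rintro z ⟨hz, hzK⟩
      have hn : Real.exp (-ε) < ‖φ z‖ := by
        by_contra hcon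
        apply hzK
        exact ⟨φ z, mem_closedBall_zero_iff.2 (not_lt.1 hcon), hψφ z hz⟩
      have hn1 : ‖φ z‖ < 1 := mem_ball_zero_iff.1 (hφm hz)
      have hpos := (Real.exp_pos (-ε)).trans hn
      rw [abs_lt]
      constructor
      · have : Real.log ‖φ z‖ < 0 := Real.log_neg hpos hn1
        linarith
      · have : -ε < Real.log ‖φ z‖ := by rw [Real.lt_log_iff_exp_lt hpos]; exact hn
        linarith

end Pool.Agent.H99D
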