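import Pool.Agent.H99D.Const

/-!
# The pole

`pp δ = MM w`, `w = δ² e^{iπ/5}`: `1 - ‖pp δ‖² = 4 sa Im w / ‖w - conj PP‖² ≤ 4 δ² / sa`, and
`Re - ka ‖·‖² < 0` by `re_sub`.
-/

set_option autoImplicit false

open Complex ComplexConjugate Metric Set

namespace Pool.Agent.H99D

private theorem pole_half_pos : 0 < AA / 2 := by
  have := AA_pos
  linarith

private theorem pole_half_lt : AA / 2 < Real.pi := by
  have := AA_lt
  have h := Real.pi_pos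
  linarith

private theorem pole_sin_pos : 0 < Real.sin (AA / 2) :=
  Real.sin_pos_of_pos_of_lt_pi pole_half_pos pole_half_lt

private theorem pole_re (δ : ℝ) :
    ((δ : ℂ) ^ 2 * exp ((AA / 2 : ℝ) * I)).re = δ ^ 2 * Real.cos (AA / 2) := by
  rw [← ofReal_pow, re_ofReal_mul, exp_ofReal_mul_I_re]

private theorem pole_im (δ : ℝ) :
    ((δ : ℂ) ^ 2 * exp ((AA / 2 : ℝ) * I)).im = δ ^ 2 * Real.sin (AA / 2) := by
  rw [← ofReal_pow, im_ofReal_mul, exp_ofReal_mul_I_im]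

private theorem pole_im_pos {δ : ℝ} (hδ : 0 < δ) :
    0 < ((δ : ℂ) ^ 2 * exp ((AA / 2 : ℝ) * I)).im := by
  rw [pole_im]
  exact mul_pos (by positivity) pole_sin_pos

theorem pp_norm_lt {δ : ℝ} (hδ : 0 < δ) : ‖pp δ‖ < 1 :=
  MM_norm_lt (pole_im_pos hδ)

theorem pp_re {δ : ℝ} (hδ : 0 < δ) : (pp δ).re < ka * ‖pp δ‖ ^ 2 := by
  have h := re_sub (pole_im_pos hδ).le
  have h1 : (((δ : ℂ) ^ 2 * exp ((AA / 2 : ℝ) * I)) * conj PP).im =
      -(δ ^ 2 * Real.sin (AA / 2)) := by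
    rw [mul_im, pole_re, pole_im, conj_re, conj_im, PP_eq]
    have e1 : ((ka : ℂ) + sa * I).re = ka := by simp
    have e2 : ((ka : ℂ) + sa * I).im = sa := by simp
    rw [e1, e2]
    have e3 : Real.sin (AA / 2 - AA) = Real.sin (AA / 2) * ka - Real.cos (AA / 2) * sa := by
      rw [Real.sin_sub]; rfl
    have e4 : Real.sin (AA / 2 - AA) = -Real.sin (AA / 2) := by
      rw [← Real.sin_neg]; congr 1; ring
    rw [e4] at e3
    linear_combination (-δ ^ 2) * e3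
  have h2 : 0 < ‖((δ : ℂ) ^ 2 * exp ((AA / 2 : ℝ) * I)) - conj PP‖ :=
    lt_of_lt_of_le sa_pos (sa_le (pole_im_pos hδ).le)
  have h3 : 2 * sa * (((δ : ℂ) ^ 2 * exp ((AA / 2 : ℝ) * I)) * conj PP).im /
      ‖((δ : ℂ) ^ 2 * exp ((AA / 2 : ℝ) * I)) - conj PP‖ ^ 2 < 0 := by
    rw [h1]
    apply div_neg_of_neg_of_pos
    · have h4 : 0 < δ ^ 2 * Real.sin (AA / 2) := mul_pos (by positivity) pole_sin_pos
      have h5 := sa_pos
      nlinarith [mul_pos h5 h4]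
    · positivity
  have h6 : (pp δ).re - ka * ‖pp δ‖ ^ 2 < 0 := by
    unfold pp
    rw [h]
    exact h3
  linarith

theorem one_sub_pp {δ : ℝ} (hδ : 0 < δ) : 1 - ‖pp δ‖ ≤ 4 / sa * δ ^ 2 := by
  have h := one_sub_norm (pole_im_pos hδ).le
  have h2 : sa ≤ ‖((δ : ℂ) ^ 2 * exp ((AA / 2 : ℝ) * I)) - conj PP‖ :=
    sa_le (pole_im_pos hδ).le
  have h0 := sa_pos
  have h3 : 1 - ‖pp δ‖ ≤ 1 - ‖pp δ‖ ^ 2 := by
    have h4 := pp_norm_lt hδ
    have h5 := norm_nonneg (pp δ)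
    nlinarith
  refine h3.trans ?_
  unfold pp
  rw [h, pole_im]
  have h6 : sa ^ 2 ≤ ‖((δ : ℂ) ^ 2 * exp ((AA / 2 : ℝ) * I)) - conj PP‖ ^ 2 :=
    pow_le_pow_left₀ h0.le h2 2
  have h7 : 4 * sa * (δ ^ 2 * Real.sin (AA / 2)) ≤ 4 * sa * δ ^ 2 := by
    have h8 := Real.sin_le_one (AA / 2)
    have h9 : 0 ≤ 4 * sa * δ ^ 2 := by positivity
    nlinarith [mul_le_mul_of_nonneg_left h8 h9]
  calc 4 * sa * (δ ^ 2 * Real.sin (AA / 2)) /
        ‖((δ : ℂ) ^ 2 * exp ((AA / 2 : ℝ) * I)) - conj PP‖ ^ 2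
      ≤ 4 * sa * δ ^ 2 / sa ^ 2 := by
        apply div_le_div₀ (by positivity) h7 (by positivity) h6
    _ = 4 / sa * δ ^ 2 := by
        field_simp

end Pool.Agent.H99D
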