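import Pool.Agent.H99D.Chain
import Pool.Agent.H99D.Exist
import Pool.Agent.H99D.Est
import Pool.Agent.H99D.Excl
import Pool.Agent.H99D.DiscUp
import Pool.Agent.H99D.Pole

/-!
# The counterexample
-/

set_option autoImplicit false

open Complex ComplexConjugate Metric Set MeasureTheory

namespace Pool.Agent.H99D

open Pool.Agent.H99.Circ

/-- Rotation of a hyperbolic distance. -/
theorem hdist_rot {τ : ℝ} {dd : ℂ → ℂ → ℝ} (hd : HDist (Dom (Th τ)) dd) :
    HDist D0 (fun x y => dd (exp (-(τ * I)) * x) (exp (-(τ * I)) * y)) := by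
  refine ⟨fun x y z => hd.tri _ _ _, ?_⟩
  intro f hf hfm u v hu hv
  refine hd.map (fun w => exp (-(τ * I)) * f w) (hf.const_mul _) ?_ u v hu hv
  intro w hw
  rw [mem_rot, ← mul_assoc, ← Complex.exp_add, add_neg_cancel, Complex.exp_zero, one_mul]
  exact hfm hw

/-- The slit disc as a member of the family. -/
theorem slitDisc_eq : {z : ℂ | ‖z‖ < 1 ∧ z ∈ slitPlane} = Dom (fun _ => 0) := by
  ext z
  simp [Dom]

/-- A choice of the parameter. -/
theorem exists_delta (c C : ℝ) (hc : 0 < c) (hC : 0 < C) : ∃ δ : ℝ, 0 < δ ∧ δ ≤ 1 / 2 ∧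
    4 / sa * δ ^ 2 ≤ 1 / 4 ∧ 2 * C * δ ^ 12 ≤ Real.pi / 4 ∧ 64 * C / sa * δ < c := by
  have hs := sa_pos
  have key : ∀ᶠ δ in nhdsWithin (0 : ℝ) (Ioi 0), 0 < δ ∧ δ < 1 / 2 ∧
    4 / sa * δ ^ 2 < 1 / 4 ∧ 2 * C * δ ^ 12 < Real.pi / 4 ∧ 64 * C / sa * δ < c := by
    have t1 : Filter.Tendsto (fun δ : ℝ => δ) (nhdsWithin (0 : ℝ) (Ioi 0)) (nhds 0) :=
      Filter.tendsto_id.mono_left nhdsWithin_le_nhds
    have t2 : Filter.Tendsto (fun δ : ℝ => 4 / sa * δ ^ 2) (nhdsWithin (0 : ℝ) (Ioi 0))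
        (nhds 0) := by
      have : Filter.Tendsto (fun δ : ℝ => 4 / sa * δ ^ 2) (nhds 0) (nhds (4 / sa * 0 ^ 2)) :=
        (by fun_prop : Continuous fun δ : ℝ => 4 / sa * δ ^ 2).tendsto 0
      simpa using this.mono_left nhdsWithin_le_nhds
    have t3 : Filter.Tendsto (fun δ : ℝ => 2 * C * δ ^ 12) (nhdsWithin (0 : ℝ) (Ioi 0))
        (nhds 0) := by
      have : Filter.Tendsto (fun δ : ℝ => 2 * C * δ ^ 12) (nhds 0) (nhds (2 * C * 0 ^ 12)) :=
        (by fun_prop : Continuous fun δ : ℝ => 2 * C * δ ^ 12).tendsto 0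
      simpa using this.mono_left nhdsWithin_le_nhds
    have t4 : Filter.Tendsto (fun δ : ℝ => 64 * C / sa * δ) (nhdsWithin (0 : ℝ) (Ioi 0))
        (nhds 0) := by
      have : Filter.Tendsto (fun δ : ℝ => 64 * C / sa * δ) (nhds 0) (nhds (64 * C / sa * 0)) :=
        (by fun_prop : Continuous fun δ : ℝ => 64 * C / sa * δ).tendsto 0
      simpa using this.mono_left nhdsWithin_le_nhds
    filter_upwards [self_mem_nhdsWithin, t1.eventually_lt_const (by norm_num : (0 : ℝ) < 1 / 2),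
      t2.eventually_lt_const (by norm_num : (0 : ℝ) < 1 / 4),
      t3.eventually_lt_const (by positivity : (0 : ℝ) < Real.pi / 4),
      t4.eventually_lt_const hc] with δ h0 h1 h2 h3 h4
    exact ⟨h0, h1, h2, h3, h4⟩
  obtain ⟨δ, h0, h1, h2, h3, h4⟩ := key.exists
  exact ⟨δ, h0, h1.le, h2.le, h3.le, h4⟩

theorem main : ∃ (D : Set ℂ) (a : ℝ) (g gs : ℂ → ℝ) (lam : ℝ) (z : ℂ),
    IsOpen D ∧ IsSimplyConnected D ∧ circSym D = {z | ‖z‖ < 1 ∧ z ∈ slitPlane} ∧
    0 < a ∧ (a : ℂ) ∈ D ∧ IsGreen D a g ∧ IsGreen (circSym D) a gs ∧ 0 < lam ∧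
    z ∈ circSym (level D a g lam) ∧ z ∉ level (circSym D) a gs lam := by
  obtain ⟨c, hc, Hc⟩ := lower
  obtain ⟨C, hC, HC⟩ := excl
  obtain ⟨δ, hδ, hδ1, hδ2, hδ3, hδ4⟩ := exists_delta c C hc hC
  have hs := sa_pos
  have hpi := Real.pi_pos
  set ε : ℝ := δ ^ 12 with hε
  have hε0 : 0 < ε := by positivity
  have hε1 : ε ≤ 1 / 2 := by
    calc ε = δ ^ 12 := rfl
      _ ≤ (1 / 2) ^ 12 := pow_le_pow_left₀ hδ.le hδ1 12
      _ ≤ 1 / 2 := by norm_num
  set r : ℝ := 1 - ε with hr
  have hr0 : 1 / 2 ≤ r := by linarith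
  have hr1 : r < 1 := by linarith
  set η : ℝ := 2 * C * ε with hη
  have hη0 : 0 < η := by positivity
  set τ : ℝ := arg (pp δ) with hτ
  set a : ℝ := ‖pp δ‖ with ha
  have ha1 : a < 1 := pp_norm_lt hδ
  have ha34 : 3 / 4 ≤ a := by
    have := one_sub_pp hδ
    linarith
  have hpp : exp (τ * I) * (a : ℂ) = pp δ := by
    rw [mul_comm]; exact Complex.norm_mul_exp_arg_mul_I (pp δ)
  have hpp' : exp (-(τ * I)) * pp δ = a := by
    rw [← hpp, ← mul_assoc, ← Complex.exp_add, neg_add_cancel, Complex.exp_zero, one_mul]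
  set D : Set ℂ := Dom (Th τ) with hD
  have hDo : IsOpen D := dom_open (Th_cont τ)
  have hDs : IsSimplyConnected D := dom_sc (Th_cont τ)
  have hDsym : circSym D = {z | ‖z‖ < 1 ∧ z ∈ slitPlane} := dom_circSym
  have hDne : D ≠ univ := by
    intro h
    have : (1 : ℂ) ∈ D := h ▸ mem_univ _
    simpa using this.1
  have haD : (a : ℂ) ∈ D := by
    rw [hD, mem_rot, hpp]
    exact mem_D0_of_re (pp_norm_lt hδ) (pp_re hδ).ne
  obtain ⟨g, hg⟩ := exists_green hDo hDs hDne haD
  -- the symmetrised domain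
  have hEo : IsOpen {z : ℂ | ‖z‖ < 1 ∧ z ∈ slitPlane} := by
    rw [slitDisc_eq]; exact dom_open continuous_const
  have hEs : IsSimplyConnected {z : ℂ | ‖z‖ < 1 ∧ z ∈ slitPlane} := by
    rw [slitDisc_eq]; exact dom_sc continuous_const
  have hEne : {z : ℂ | ‖z‖ < 1 ∧ z ∈ slitPlane} ≠ univ := by
    intro h
    have : (1 : ℂ) ∈ {z : ℂ | ‖z‖ < 1 ∧ z ∈ slitPlane} := h ▸ mem_univ _
    simpa using this.1
  have haE : (a : ℂ) ∈ {z : ℂ | ‖z‖ < 1 ∧ z ∈ slitPlane} := by
    refine ⟨by simpa [abs_of_nonneg (by linarith : (0 : ℝ) ≤ a)] using ha1, ?_⟩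
    rw [Complex.ofReal_mem_slitPlane]
    linarith
  obtain ⟨gs, hgs⟩ := exists_green hEo hEs hEne haE
  obtain ⟨dd, hdd, hddg⟩ := chain hDo hDs hDne haD hg
  -- the level
  set lam : ℝ := 64 * C / sa * δ ^ 26 with hlam
  have hlam0 : 0 < lam := by positivity
  have hlamc : lam < c * δ ^ 25 := by
    calc lam = 64 * C / sa * δ * δ ^ 25 := by rw [hlam]; ring
      _ < c * δ ^ 25 := mul_lt_mul_of_pos_right hδ4 (by positivity)
  -- the lower bound
  have hlow : ∀ θ : ℝ, 2 * ε ≤ |Real.cos (θ + τ) - ka * r| →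
      (r : ℂ) * exp (θ * I) ∈ level D a g lam := by
    intro θ hθ
    set z : ℂ := (r : ℂ) * exp (θ * I) with hz
    set w : ℂ := exp (τ * I) * z with hw
    have hnw : ‖w‖ = r := by
      rw [hw, hz, norm_mul, norm_mul, Complex.norm_exp_ofReal_mul_I, Complex.norm_exp_ofReal_mul_I,
        Complex.norm_real, Real.norm_of_nonneg (by linarith)]
      ring
    have hwre : w.re = r * Real.cos (θ + τ) := by
      have : w = (r : ℂ) * exp (((θ + τ : ℝ) : ℂ) * I) := by
        rw [hw, hz, ofReal_add, add_mul, Complex.exp_add]; ring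
      rw [this, Complex.re_ofReal_mul, Complex.exp_ofReal_mul_I_re]
    have habs : ε ≤ |w.re - ka * ‖w‖ ^ 2| := by
      have : w.re - ka * ‖w‖ ^ 2 = r * (Real.cos (θ + τ) - ka * r) := by
        rw [hwre, hnw]; ring
      rw [this, abs_mul, abs_of_nonneg (by linarith : (0 : ℝ) ≤ r)]
      nlinarith
    have hzD : z ∈ D := by
      rw [hD, mem_rot]
      refine mem_D0_of_re (by rw [← hw, hnw]; exact hr1) ?_
      intro h
      rw [← hw] at h
      rw [h, sub_self, abs_zero] at habs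
      linarith
    refine ⟨hzD, ?_⟩
    rcases eq_or_ne z a with h | h
    · exact Or.inl h
    · right
      have h1 := Hc δ hδ hδ1 _ (hdist_rot hdd) w (by rw [hnw]) habs
      rw [hpp'] at h1
      have h2 : exp (-(τ * I)) * w = z := by
        rw [hw, ← mul_assoc, ← Complex.exp_add, neg_add_cancel, Complex.exp_zero, one_mul]
      rw [h2] at h1
      exact hlamc.trans_le (h1.trans (hddg z hzD h))
  -- the measure of the section
  have hvol : 2 * Real.pi - η ≤ angLen (level D a g lam) r := by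
    set S : Set ℝ := {θ : ℝ | -Real.pi < θ ∧ θ ≤ Real.pi ∧ |Real.cos (θ + τ) - ka * r| < 2 * ε}
      with hS
    set T : Set ℝ := {θ : ℝ | -Real.pi < θ ∧ θ ≤ Real.pi ∧
      (r : ℂ) * exp (θ * I) ∈ level D a g lam} with hT
    have hvS : volume S ≤ ENNReal.ofReal η := by
      have := HC τ r (2 * ε) (by linarith) hr1 (by positivity)
      rw [show C * (2 * ε) = η by rw [hη]; ring] at this
      exact this
    have hcov : Ioc (-Real.pi) Real.pi ⊆ S ∪ T := by
      intro θ hθ
      rcases lt_or_ge |Real.cos (θ + τ) - ka * r| (2 * ε) with h | h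
      · exact Or.inl ⟨hθ.1, hθ.2, h⟩
      · exact Or.inr ⟨hθ.1, hθ.2, hlow θ h⟩
    have h1 : ENNReal.ofReal (2 * Real.pi) ≤ ENNReal.ofReal η + volume T := by
      calc ENNReal.ofReal (2 * Real.pi) = volume (Ioc (-Real.pi) Real.pi) := by
            rw [Real.volume_Ioc]; congr 1; ring
        _ ≤ volume (S ∪ T) := measure_mono hcov
        _ ≤ volume S + volume T := measure_union_le _ _
        _ ≤ _ := by gcongr
    have hTfin : volume T ≠ ⊤ := by
      refine ne_top_of_le_ne_top ?_ (measure_mono (show T ⊆ Ioc (-Real.pi) Real.pi from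
        fun θ hθ => ⟨hθ.1, hθ.2.1⟩))
      rw [Real.volume_Ioc]; exact ENNReal.ofReal_ne_top
    have h2 : 2 * Real.pi ≤ η + (volume T).toReal := by
      have h3 := ENNReal.toReal_mono (ENNReal.add_ne_top.mpr ⟨ENNReal.ofReal_ne_top, hTfin⟩) h1
      rwa [ENNReal.toReal_ofReal (by positivity), ENNReal.toReal_add ENNReal.ofReal_ne_top hTfin,
        ENNReal.toReal_ofReal hη0.le] at h3
    have h3 : angLen (level D a g lam) r = (volume T).toReal := rfl
    rw [h3]; linarith
  -- the point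
  set zs : ℂ := (r : ℂ) * exp ((Real.pi - η : ℝ) * I) with hzs
  have hnzs : ‖zs‖ = r := by
    rw [hzs, norm_mul, Complex.norm_exp_ofReal_mul_I, Complex.norm_real,
      Real.norm_of_nonneg (by linarith), mul_one]
  have hηpi : η ≤ Real.pi / 4 := hδ3
  have harg : arg zs = Real.pi - η := by
    rw [hzs, Complex.arg_real_mul _ (by linarith : (0 : ℝ) < r), Complex.arg_exp_mul_I,
      toIocMod_eq_self]
    constructor <;> linarith
  refine ⟨D, a, g, gs, lam, zs, hDo, hDs, hDsym, by linarith, haD, hg, hDsym ▸ hgs, hlam0, ?_, ?_⟩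
  · right
    have hlt : |arg zs| < 1 / 2 * angLen (level D a g lam) ‖zs‖ := by
      rw [hnzs, harg, abs_of_nonneg (by linarith)]
      linarith
    refine ⟨?_, ?_, hlt⟩
    · by_contra hcon
      push Not at hcon
      have : angLen (level D a g lam) r = 0 := by
        unfold angLen
        have : {θ : ℝ | -Real.pi < θ ∧ θ ≤ Real.pi ∧
            (r : ℂ) * exp (θ * I) ∈ level D a g lam} = ∅ := by
          ext θ
          simp only [mem_setOf_eq, mem_empty_iff_false, iff_false]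
          rintro ⟨-, -, h⟩
          refine hcon _ h ?_
          rw [hnzs, norm_mul, Complex.norm_exp_ofReal_mul_I, Complex.norm_real,
            Real.norm_of_nonneg (by linarith), mul_one]
        rw [this]; simp
      rw [this] at hvol
      linarith
    · intro h
      rw [h, norm_zero] at hnzs
      linarith
  · rw [hDsym]
    rintro ⟨-, h | h⟩
    · have h1 : arg zs = 0 := by
        rw [h]; exact Complex.arg_ofReal_of_nonneg (by linarith)
      rw [harg] at h1
      linarith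
    · have h1 := disc_up ha34 ha1 hgs (r := r) (η := η) (by linarith) hr1 hη0 (by linarith)
      rw [← hzs] at h1
      have h2 : 8 * (1 - r) * η * (1 - a) ≤ lam := by
        have h3 := one_sub_pp hδ
        calc 8 * (1 - r) * η * (1 - a) ≤ 8 * (1 - r) * η * (4 / sa * δ ^ 2) := by
              apply mul_le_mul_of_nonneg_left h3
              have : 0 < 1 - r := by linarith
              positivity
          _ = lam := by
              rw [hlam, hη, hr, hε]
              ring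
      linarith

end Pool.Agent.H99D
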