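import Pool.Agent.H99D.Const

/-!
# Points of the cut disc

`z ∉ D0`, `‖z‖ = r < 1` means `z = r e^{i arccos (ka r)}`, hence `Re z = ka r²` and `Im z ≥ 0`.
-/

set_option autoImplicit false

open Complex ComplexConjugate Metric Set

namespace Pool.Agent.H99D

/-- A point of the disc on the cut. -/
lemma eq_of_not_mem_D0 {z : ℂ} (hz : ‖z‖ < 1) (h : z ∉ D0) :
    z.re = ka * ‖z‖ ^ 2 ∧ 0 ≤ z.im := by
  have hn : 0 ≤ ‖z‖ := norm_nonneg z
  have h1 : z * exp ((Th 0 ‖z‖ : ℝ) * I) ∉ slitPlane := fun h' => h ⟨hz, h'⟩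
  set w : ℂ := z * exp ((Th 0 ‖z‖ : ℝ) * I) with hw
  have hwn : ‖w‖ = ‖z‖ := by
    rw [hw, norm_mul, Complex.norm_exp_ofReal_mul_I, mul_one]
  rw [Complex.mem_slitPlane_iff, not_or, not_lt, not_not] at h1
  have hw2 : w = -(‖z‖ : ℂ) := by
    have ha : |w.re| = ‖z‖ := by
      rw [← hwn, Complex.abs_re_eq_norm]
      exact h1.2
    rw [abs_of_nonpos h1.1] at ha
    apply Complex.ext
    · simp; linarith
    · simpa using h1.2
  set a : ℝ := Real.arccos (ka * ‖z‖) with ha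
  have hTh : Th 0 ‖z‖ = Real.pi - a := by simp [Th, ha]
  have hz2 : z = (‖z‖ : ℂ) * exp ((a : ℝ) * I) := by
    have h3 : z = w * exp (((-Th 0 ‖z‖ : ℝ) : ℂ) * I) := by
      rw [hw, mul_assoc, ← Complex.exp_add]
      have : ((Th 0 ‖z‖ : ℝ) : ℂ) * I + ((-Th 0 ‖z‖ : ℝ) : ℂ) * I = 0 := by push_cast; ring
      rw [this, Complex.exp_zero, mul_one]
    have h4 : exp (((-Th 0 ‖z‖ : ℝ) : ℂ) * I) = -exp ((a : ℝ) * I) := by
      rw [hTh]
      have : (((-(Real.pi - a) : ℝ)) : ℂ) * I = (a : ℂ) * I - (Real.pi : ℂ) * I := by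
        push_cast; ring
      rw [this, Complex.exp_sub, Complex.exp_pi_mul_I]
      ring
    rw [h4, hw2] at h3
    calc z = -(‖z‖ : ℂ) * -exp ((a : ℝ) * I) := h3
      _ = (‖z‖ : ℂ) * exp ((a : ℝ) * I) := by ring
  have hka := ka_pos
  have hka1 := ka_lt
  have hcos : Real.cos a = ka * ‖z‖ := by
    rw [ha, Real.cos_arccos]
    · have : 0 ≤ ka * ‖z‖ := by positivity
      linarith
    · nlinarith
  constructor
  · have h5 := congrArg Complex.re hz2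
    rw [Complex.re_ofReal_mul, Complex.exp_ofReal_mul_I_re, hcos] at h5
    rw [h5]; ring
  · have h5 := congrArg Complex.im hz2
    rw [Complex.im_ofReal_mul, Complex.exp_ofReal_mul_I_im] at h5
    rw [h5]
    exact mul_nonneg hn (Real.sin_nonneg_of_mem_Icc ⟨Real.arccos_nonneg _, Real.arccos_le_pi _⟩)

theorem mem_D0_of_re {z : ℂ} (hz : ‖z‖ < 1) (h : z.re ≠ ka * ‖z‖ ^ 2) : z ∈ D0 := by
  by_contra hc
  exact h (eq_of_not_mem_D0 hz hc).1

theorem mem_D0_of_im {z : ℂ} (hz : ‖z‖ < 1) (h : z.im < 0) : z ∈ D0 := by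
  by_contra hc
  exact absurd (eq_of_not_mem_D0 hz hc).2 (not_le.2 h)

/-- Rotation. -/
theorem mem_rot {τ : ℝ} {z : ℂ} : z ∈ Dom (Th τ) ↔ exp (τ * I) * z ∈ D0 := by
  have hn : ‖exp (τ * I) * z‖ = ‖z‖ := by
    rw [norm_mul, Complex.norm_exp_ofReal_mul_I, one_mul]
  have he : exp (τ * I) * z * exp ((Th 0 ‖z‖ : ℝ) * I) = z * exp ((Th τ ‖z‖ : ℝ) * I) := by
    have : exp ((Th τ ‖z‖ : ℝ) * I) = exp (τ * I) * exp ((Th 0 ‖z‖ : ℝ) * I) := by
      rw [← Complex.exp_add]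
      congr 1
      simp only [Th]
      push_cast
      ring
    rw [this]; ring
  constructor
  · rintro ⟨h1, h2⟩
    refine ⟨by rw [hn]; exact h1, ?_⟩
    rw [hn, he]
    exact h2
  · rintro ⟨h1, h2⟩
    rw [hn] at h1 h2
    rw [he] at h2
    exact ⟨h1, h2⟩

theorem Th_cont (τ : ℝ) : Continuous (Th τ) := by
  unfold Th
  fun_prop

end Pool.Agent.H99D
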