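import Pool.Agent.H99D.Defs

/-!
# The cut discs

Openness: `z ↦ z exp (Θ ‖z‖ i)` is continuous and `slitPlane` is open.
Simply connected: `z ↦ z exp (Θ ‖z‖ i)` is a homeomorphism of `Dom Θ` onto
`Dom 0 = ball 0 1 ∩ slitPlane` (inverse `z ↦ z exp (-Θ ‖z‖ i)`), which is star-shaped about `1/2`,
hence contractible, hence simply connected.
Symmetrisation: `-r e^{-iΘ(r)}` is not in `Dom Θ`, so no full circle is; for `0 < r < 1` the set of
`θ ∈ (-π, π]` with `r e^{iθ} ∈ Dom Θ` is `(-π, π]` minus one point, so `angLen = 2π`.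
-/

set_option autoImplicit false

open Complex ComplexConjugate Metric Set

namespace Pool.Agent.H99D

open Pool.Agent.H99.Circ

variable {Θ : ℝ → ℝ}

lemma tw_norm (Θ : ℝ → ℝ) (z : ℂ) (t : ℝ) : ‖z * exp (Θ t * I)‖ = ‖z‖ := by
  rw [norm_mul, Complex.norm_exp_ofReal_mul_I, mul_one]

/-- The twist as a homeomorphism of the plane. -/
noncomputable def twist (Θ : ℝ → ℝ) (hΘ : Continuous Θ) : ℂ ≃ₜ ℂ where
  toFun z := z * exp (Θ ‖z‖ * I)
  invFun z := z * exp (((-Θ ‖z‖ : ℝ) : ℂ) * I)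
  left_inv z := by
    show z * exp (Θ ‖z‖ * I) * exp (((-Θ ‖z * exp (Θ ‖z‖ * I)‖ : ℝ) : ℂ) * I) = z
    rw [tw_norm, mul_assoc, ← Complex.exp_add]
    have : (Θ ‖z‖ : ℂ) * I + ((-Θ ‖z‖ : ℝ) : ℂ) * I = 0 := by push_cast; ring
    rw [this, Complex.exp_zero, mul_one]
  right_inv z := by
    show z * exp (((-Θ ‖z‖ : ℝ) : ℂ) * I) *
      exp (Θ ‖z * exp (((-Θ ‖z‖ : ℝ) : ℂ) * I)‖ * I) = z
    have h : ‖z * exp (((-Θ ‖z‖ : ℝ) : ℂ) * I)‖ = ‖z‖ := by
      rw [norm_mul, Complex.norm_exp_ofReal_mul_I, mul_one]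
    rw [h, mul_assoc, ← Complex.exp_add]
    have : ((-Θ ‖z‖ : ℝ) : ℂ) * I + (Θ ‖z‖ : ℂ) * I = 0 := by push_cast; ring
    rw [this, Complex.exp_zero, mul_one]
  continuous_toFun := by fun_prop
  continuous_invFun := by fun_prop

lemma twist_apply (hΘ : Continuous Θ) (z : ℂ) : twist Θ hΘ z = z * exp (Θ ‖z‖ * I) := rfl

/-- The disc cut along the negative radius. -/
lemma dom_eq_preimage (hΘ : Continuous Θ) :
    Dom Θ = twist Θ hΘ ⁻¹' (ball (0 : ℂ) 1 ∩ slitPlane) := by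
  ext z
  simp only [Dom, mem_preimage, mem_inter_iff, mem_ball_zero_iff, twist_apply, tw_norm]
  exact Iff.rfl

theorem dom_open (hΘ : Continuous Θ) : IsOpen (Dom Θ) := by
  rw [dom_eq_preimage hΘ]
  exact (isOpen_ball.inter Complex.isOpen_slitPlane).preimage (twist Θ hΘ).continuous

theorem dom_sc (hΘ : Continuous Θ) : IsSimplyConnected (Dom Θ) := by
  rw [dom_eq_preimage hΘ, Homeomorph.isSimplyConnected_preimage]
  have hb : ((1 / 2 : ℝ) : ℂ) ∈ ball (0 : ℂ) 1 := by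
    rw [mem_ball_zero_iff, Complex.norm_real]
    norm_num
  have hs : ((1 / 2 : ℝ) : ℂ) ∈ slitPlane := by
    rw [Complex.ofReal_mem_slitPlane]
    norm_num
  have hst : StarConvex ℝ ((1 / 2 : ℝ) : ℂ) (ball (0 : ℂ) 1 ∩ slitPlane) :=
    ((convex_ball _ _).starConvex hb).inter (starConvex_ofReal_slitPlane (by norm_num))
  have hc : ContractibleSpace ↥(ball (0 : ℂ) 1 ∩ slitPlane) :=
    hst.contractibleSpace ⟨_, hb, hs⟩
  show SimplyConnectedSpace ↥(ball (0 : ℂ) 1 ∩ slitPlane)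
  infer_instance

lemma angLen_dom {r : ℝ} (hr : 0 < r) (hr1 : r < 1) : angLen (Dom Θ) r = 2 * Real.pi := by
  have hpi := Real.pi_pos
  set S : Set ℝ := {θ : ℝ | -Real.pi < θ ∧ θ ≤ Real.pi ∧
    (r : ℂ) * Complex.exp (θ * Complex.I) ∈ Dom Θ} with hS
  set N : Set ℝ := Set.range (fun n : ℤ => Real.pi - Θ r + 2 * Real.pi * n) with hN
  have hN0 : MeasureTheory.volume N = 0 := (Set.countable_range _).measure_zero _
  have hsub : S ⊆ Set.Ioc (-Real.pi) Real.pi := fun θ hθ => ⟨hθ.1, hθ.2.1⟩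
  have hsup : Set.Ioc (-Real.pi) Real.pi \ N ⊆ S := by
    rintro θ ⟨⟨h1, h2⟩, h3⟩
    refine ⟨h1, h2, ?_⟩
    have hnorm : ‖(r : ℂ) * Complex.exp (θ * Complex.I)‖ = r := by
      rw [norm_mul, Complex.norm_exp_ofReal_mul_I, mul_one, Complex.norm_real,
        Real.norm_eq_abs, abs_of_pos hr]
    refine ⟨by rw [hnorm]; exact hr1, ?_⟩
    rw [hnorm]
    have he : (r : ℂ) * Complex.exp (θ * I) * Complex.exp (Θ r * I)
        = (r : ℂ) * Complex.exp (((θ + Θ r : ℝ) : ℂ) * I) := by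
      rw [mul_assoc, ← Complex.exp_add]
      congr 2
      push_cast; ring
    rw [he]
    by_contra hns
    apply h3
    rw [Complex.mem_slitPlane_iff, not_or] at hns
    obtain ⟨hre, him⟩ := hns
    have him' : Real.sin (θ + Θ r) = 0 := by
      have := him
      rw [not_not] at this
      rw [Complex.re_ofReal_mul, Complex.exp_ofReal_mul_I_re] at hre
      rw [Complex.im_ofReal_mul, Complex.exp_ofReal_mul_I_im] at this
      rcases mul_eq_zero.1 this with h | h
      · exact absurd h hr.ne'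
      · exact h
    have hre' : Real.cos (θ + Θ r) ≤ 0 := by
      rw [Complex.re_ofReal_mul, Complex.exp_ofReal_mul_I_re] at hre
      by_contra hc
      exact hre (mul_pos hr (not_le.1 hc))
    have hcos : Real.cos (θ + Θ r) = -1 := by
      have h4 := Real.sin_sq_add_cos_sq (θ + Θ r)
      rw [him'] at h4
      have h5 : (Real.cos (θ + Θ r) - 1) * (Real.cos (θ + Θ r) + 1) = 0 := by
        nlinarith [h4]
      rcases mul_eq_zero.1 h5 with h | h <;> linarith
    have hcos2 : Real.cos (θ + Θ r - Real.pi) = 1 := by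
      rw [Real.cos_sub_pi, hcos]; norm_num
    obtain ⟨n, hn⟩ := (Real.cos_eq_one_iff _).1 hcos2
    exact ⟨n, by simp only; linarith⟩
  have hle : MeasureTheory.volume S ≤ MeasureTheory.volume (Set.Ioc (-Real.pi) Real.pi) :=
    MeasureTheory.measure_mono hsub
  have hge : MeasureTheory.volume (Set.Ioc (-Real.pi) Real.pi) ≤ MeasureTheory.volume S := by
    calc MeasureTheory.volume (Set.Ioc (-Real.pi) Real.pi)
        = MeasureTheory.volume (Set.Ioc (-Real.pi) Real.pi \ N) :=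
          (MeasureTheory.measure_sdiff_null hN0).symm
      _ ≤ MeasureTheory.volume S := MeasureTheory.measure_mono hsup
  have heq : MeasureTheory.volume S = ENNReal.ofReal (2 * Real.pi) := by
    rw [le_antisymm hle hge, Real.volume_Ioc]
    congr 1
    ring
  show (MeasureTheory.volume S).toReal = 2 * Real.pi
  rw [heq, ENNReal.toReal_ofReal (by positivity)]

theorem dom_circSym : circSym (Dom Θ) = {z | ‖z‖ < 1 ∧ z ∈ slitPlane} := by
  have hpi := Real.pi_pos
  have hnone : ∀ z : ℂ, ¬ ∀ w : ℂ, ‖w‖ = ‖z‖ → w ∈ Dom Θ := by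
    intro z hall
    have hn : ‖-(‖z‖ : ℂ) * exp (((-Θ ‖z‖ : ℝ) : ℂ) * I)‖ = ‖z‖ := by
      rw [norm_mul, Complex.norm_exp_ofReal_mul_I, mul_one, norm_neg, Complex.norm_real,
        norm_norm]
    have h := (hall _ hn).2
    rw [hn, mul_assoc, ← Complex.exp_add] at h
    have h0 : ((-Θ ‖z‖ : ℝ) : ℂ) * I + (Θ ‖z‖ : ℂ) * I = 0 := by push_cast; ring
    rw [h0, Complex.exp_zero, mul_one, Complex.mem_slitPlane_iff] at h
    rcases h with h | h
    · have : 0 < -‖z‖ := by simpa using h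
      linarith [norm_nonneg z]
    · apply h
      simp
  ext z
  constructor
  · rintro (h | ⟨⟨w, hw, hwz⟩, hz0, harg⟩)
    · exact absurd h (hnone z)
    · have hz1 : ‖z‖ < 1 := hwz ▸ hw.1
      refine ⟨hz1, ?_⟩
      rw [angLen_dom (norm_pos_iff.2 hz0) hz1] at harg
      rw [Complex.mem_slitPlane_iff_arg]
      refine ⟨?_, hz0⟩
      intro ha
      rw [ha, abs_of_pos hpi] at harg
      linarith
  · rintro ⟨hz1, hzs⟩
    right
    have hz0 : z ≠ 0 := slitPlane_ne_zero hzs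
    have hzp : 0 < ‖z‖ := norm_pos_iff.2 hz0
    refine ⟨⟨(‖z‖ : ℂ) * exp (((-Θ ‖z‖ : ℝ) : ℂ) * I), ?_, ?_⟩, hz0, ?_⟩
    · have hn : ‖(‖z‖ : ℂ) * exp (((-Θ ‖z‖ : ℝ) : ℂ) * I)‖ = ‖z‖ := by
        rw [norm_mul, Complex.norm_exp_ofReal_mul_I, mul_one, Complex.norm_real, norm_norm]
      refine ⟨by rw [hn]; exact hz1, ?_⟩
      rw [hn, mul_assoc, ← Complex.exp_add]
      have h0 : ((-Θ ‖z‖ : ℝ) : ℂ) * I + (Θ ‖z‖ : ℂ) * I = 0 := by push_cast; ring
      rw [h0, Complex.exp_zero, mul_one, Complex.ofReal_mem_slitPlane]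
      exact hzp
    · rw [norm_mul, Complex.norm_exp_ofReal_mul_I, mul_one, Complex.norm_real, norm_norm]
    · rw [angLen_dom hzp hz1]
      have ha := Complex.abs_arg_le_pi z
      have hne := (Complex.mem_slitPlane_iff_arg.1 hzs).1
      have hlt : |z.arg| < Real.pi := by
        refine lt_of_le_of_ne ha ?_
        intro heq
        rcases (abs_eq hpi.le).1 heq with h | h
        · exact hne h
        · have := Complex.neg_pi_lt_arg z
          linarith
      linarith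

end Pool.Agent.H99D
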